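import Pool.Agent.MP_686ee2_an.RC.Pair

/-!
A polynomial of degree at most `m` whose weighted values are exponentially small at half of the points.
-/

set_option autoImplicit false

namespace Pool.Agent.BalanWangRC

open Finset Polynomial

lemma norm_eval_prod {κ : Type*} (X : Finset κ) (f : κ → ℂ) (z : ℂ) :
    ‖(∏ b ∈ X, (Polynomial.X - C (f b))).eval z‖ = ∏ b ∈ X, ‖z - f b‖ := by
  rw [eval_prod, norm_prod]
  simp

/-- **Pair lemma.** -/
lemma pair {ι : Type*} [DecidableEq ι] (w t : ι → ℂ) (J : Finset ι) (hw : ∀ j ∈ J, w j ≠ 0) (m : ℕ)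
    (hm : 1 ≤ m)
    {k0 l0 : ι} (hk0 : k0 ∈ J) (hl0 : l0 ∈ J) (hkl : t k0 ≠ t l0) :
    ∃ P Q : ℂ[X], P.natDegree ≤ m ∧ Q.natDegree ≤ m ∧
      ∃ i ∈ J, ∃ j ∈ J, w i * P.eval (t i) ≠ 0 ∧ w j * Q.eval (t j) ≠ 0 ∧
        ∀ k ∈ J, ‖w k * P.eval (t k)‖ * ‖w k * Q.eval (t k)‖
          ≤ (1 / 2 : ℝ) ^ (((m : ℝ) - 1) / 12) *
            (‖w i * P.eval (t i)‖ * ‖w j * Q.eval (t j)‖) := by
  classical
  have hgpos : 0 < (1 / 2 : ℝ) ^ (((m : ℝ) - 1) / 12) := Real.rpow_pos_of_pos (by norm_num) _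
  rcases Nat.lt_or_ge (J.image t).card (2 * m + 1) with hlt | hge
  · -- few values
    set U := J.image t with hU
    have hkU : t k0 ∈ U := mem_image_of_mem t hk0
    have hlU : t l0 ∈ U := mem_image_of_mem t hl0
    have hU2 : 2 ≤ U.card := by
      have : ({t k0, t l0} : Finset ℂ) ⊆ U := by
        intro x hx
        rw [mem_insert, mem_singleton] at hx
        rcases hx with rfl | rfl
        · exact hkU
        · exact hlU
      have h := card_le_card this
      rwa [card_pair hkl] at h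
    obtain ⟨U1, h1, h2, h3⟩ := exists_subsuperset_card_eq (s := {t k0}) (t := U.erase (t l0))
      (n := min m (U.card - 1)) (by
        rw [singleton_subset_iff, mem_erase]; exact ⟨hkl, hkU⟩) (by
        rw [card_singleton]; omega) (by
        rw [card_erase_of_mem hlU]; omega)
    have hU1U : U1 ⊆ U := h2.trans (erase_subset _ _)
    have hl1 : t l0 ∉ U1 := fun h => by
      have := h2 h
      rw [mem_erase] at this
      exact this.1 rfl
    have hk1 : t k0 ∈ U1 := h1 (mem_singleton_self _)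
    refine ⟨∏ x ∈ U1, (X - C x), ∏ x ∈ U \ U1, (X - C x), ?_, ?_, l0, hl0, k0, hk0, ?_, ?_, ?_⟩
    · rw [natDegree_finsetProd_X_sub_C_eq_card]; omega
    · rw [natDegree_finsetProd_X_sub_C_eq_card, card_sdiff_of_subset hU1U]; omega
    · refine mul_ne_zero (hw l0 hl0) ?_
      rw [eval_prod, prod_ne_zero_iff]
      intro x hx
      simp only [eval_sub, eval_X, eval_C]
      exact sub_ne_zero.2 fun e => hl1 (e ▸ hx)
    · refine mul_ne_zero (hw k0 hk0) ?_
      rw [eval_prod, prod_ne_zero_iff]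
      intro x hx
      simp only [eval_sub, eval_X, eval_C]
      exact sub_ne_zero.2 fun e => (mem_sdiff.1 hx).2 (e ▸ hk1)
    · intro k hk
      have hkU : t k ∈ U := mem_image_of_mem t hk
      have : ‖w k * eval (t k) (∏ x ∈ U1, (X - C x))‖
          * ‖w k * eval (t k) (∏ x ∈ U \ U1, (X - C x))‖ = 0 := by
        by_cases h : t k ∈ U1
        · rw [eval_prod, prod_eq_zero h (by simp)]; simp
        · rw [eval_prod (U \ U1), prod_eq_zero (mem_sdiff.2 ⟨hkU, h⟩) (by simp)]; simp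
      rw [this]
      exact mul_nonneg hgpos.le (mul_nonneg (norm_nonneg _) (norm_nonneg _))
  · obtain ⟨T, hTJ, hTc, hinj, hmax⟩ := exists_max w t J hw (2 * m + 1) hge
    set e : T ≃ Fin (2 * m + 1) := T.equivFinOfCardEq hTc with he
    set s : Fin (2 * m + 1) → ι := fun b => (e.symm b : ι) with hs
    have hsT : ∀ b, s b ∈ T := fun b => (e.symm b).2
    have hsinj : Function.Injective s := fun a b h => e.symm.injective (Subtype.ext h)
    have htsinj : Function.Injective (fun b => t (s b)) := fun a b h =>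
      hsinj (hinj (by exact_mod_cast hsT a) (by exact_mod_cast hsT b) h)
    obtain ⟨a, i, hai, X, hXc, haX, hiX, hle⟩ := exists_small rfl hm (fun b => t (s b)) htsinj
      (fun b => w (s b)) (fun b => hw _ (hTJ (hsT b)))
    have himg : (univ.erase a).image s = T.erase (s a) := by
      ext x
      simp only [mem_image, mem_erase, mem_univ, and_true]
      constructor
      · rintro ⟨b, hb, rfl⟩
        exact ⟨fun h => hb (hsinj h), hsT b⟩
      · rintro ⟨hx, hxT⟩
        refine ⟨e ⟨x, hxT⟩, fun h => hx ?_, ?_⟩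
        · rw [← h]; simp [hs]
        · simp [hs]
    have hXsub : X ⊆ univ.erase a := fun b hb => mem_erase.2 ⟨fun h => haX (h ▸ hb), mem_univ _⟩
    set P : ℂ[X] := ∏ b ∈ X, (Polynomial.X - C (t (s b))) with hP
    set Q : ℂ[X] := ∏ b ∈ (univ.erase a) \ X, (Polynomial.X - C (t (s b))) with hQ
    have hPn : ∀ z, ‖P.eval z‖ = ∏ b ∈ X, ‖z - t (s b)‖ := fun z => norm_eval_prod _ _ _
    have hQn : ∀ z, ‖Q.eval z‖ = ∏ b ∈ (univ.erase a) \ X, ‖z - t (s b)‖ :=
      fun z => norm_eval_prod _ _ _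
    have hPQ : ∀ k, ‖w k * P.eval (t k)‖ * ‖w k * Q.eval (t k)‖ = E w t k (T.erase (s a)) := by
      intro k
      rw [norm_mul, norm_mul, hPn, hQn]
      unfold E
      rw [← himg, prod_image (fun x _ y _ h => hsinj h), ← prod_sdiff hXsub]
      ring
    refine ⟨P, Q, ?_, ?_, s i, hTJ (hsT i), s a, hTJ (hsT a), ?_, ?_, ?_⟩
    · rw [hP, natDegree_finsetProd_X_sub_C_eq_card]; omega
    · rw [hQ, natDegree_finsetProd_X_sub_C_eq_card, card_sdiff_of_subset hXsub,
        card_erase_of_mem (mem_univ _), card_univ, Fintype.card_fin]; omega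
    · refine mul_ne_zero (hw _ (hTJ (hsT i))) ?_
      rw [hP, eval_prod, prod_ne_zero_iff]
      intro x hx
      simp only [eval_sub, eval_X, eval_C]
      exact sub_ne_zero.2 fun h => hiX (by rw [htsinj h]; exact hx)
    · refine mul_ne_zero (hw _ (hTJ (hsT a))) ?_
      rw [hQ, eval_prod, prod_ne_zero_iff]
      intro x hx
      simp only [eval_sub, eval_X, eval_C]
      exact sub_ne_zero.2 fun h => (mem_erase.1 (mem_sdiff.1 hx).1).1 (htsinj h).symm
    · intro k hk
      rw [hPQ k]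
      refine (hmax (s a) (hsT a) k hk).trans ?_
      rw [← hPQ (s a)]
      have h1 : ‖w (s a) * P.eval (t (s a))‖
          ≤ (1 / 2 : ℝ) ^ (((m : ℝ) - 1) / 12) * ‖w (s i) * P.eval (t (s i))‖ := by
        rw [norm_mul, norm_mul, hPn, hPn]
        exact hle
      calc ‖w (s a) * P.eval (t (s a))‖ * ‖w (s a) * Q.eval (t (s a))‖
          ≤ ((1 / 2 : ℝ) ^ (((m : ℝ) - 1) / 12) * ‖w (s i) * P.eval (t (s i))‖)
              * ‖w (s a) * Q.eval (t (s a))‖ := mul_le_mul_of_nonneg_right h1 (norm_nonneg _)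
        _ = _ := by ring

/-- **Half of the coordinates are small.** -/
lemma half_small {ι : Type*} [Fintype ι] [DecidableEq ι] (w t : ι → ℂ) (I : Finset ι) (m : ℕ)
    (hm : 1 ≤ m)
    (hI : I.card ≤ (univ.filter (fun k => k ∉ I ∧ w k = 0)).card)
    {k0 l0 : ι} (hk0 : k0 ∉ I) (hl0 : l0 ∉ I) (hk1 : w k0 ≠ 0) (hl1 : w l0 ≠ 0)
    (hkl : t k0 ≠ t l0) :
    ∃ P : ℂ[X], P.natDegree ≤ m ∧ ∃ i, i ∉ I ∧ w i * P.eval (t i) ≠ 0 ∧
      ∃ T : Finset ι, Fintype.card ι ≤ 2 * T.card ∧ Disjoint T I ∧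
        ∀ k ∈ T, ‖w k * P.eval (t k)‖
          ≤ (1 / 2 : ℝ) ^ (((m : ℝ) - 1) / 24) * ‖w i * P.eval (t i)‖ := by
  classical
  set J : Finset ι := univ.filter (fun k => k ∉ I ∧ w k ≠ 0) with hJ
  have hwJ : ∀ j ∈ J, w j ≠ 0 := fun j hj => (mem_filter.1 hj).2.2
  obtain ⟨P, Q, hPd, hQd, i, hi, j, hj, hiP, hjQ, hall⟩ := pair w t J hwJ m hm
    (k0 := k0) (l0 := l0) (by simp [hJ, hk0, hk1]) (by simp [hJ, hl0, hl1]) hkl
  set ε : ℝ := (1 / 2 : ℝ) ^ (((m : ℝ) - 1) / 24) with hε
  have hεpos : 0 < ε := Real.rpow_pos_of_pos (by norm_num) _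
  have hε2 : (1 / 2 : ℝ) ^ (((m : ℝ) - 1) / 12) = ε * ε := by
    rw [hε, ← Real.rpow_add (by norm_num)]
    congr 1; ring
  set TP : Finset ι := univ.filter (fun k => k ∉ I ∧
    ‖w k * P.eval (t k)‖ ≤ ε * ‖w i * P.eval (t i)‖) with hTP
  set TQ : Finset ι := univ.filter (fun k => k ∉ I ∧
    ‖w k * Q.eval (t k)‖ ≤ ε * ‖w j * Q.eval (t j)‖) with hTQ
  have hU : TP ∪ TQ = univ.filter (fun k => k ∉ I) := by
    ext k
    simp only [hTP, hTQ, mem_union, mem_filter, mem_univ, true_and]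
    constructor
    · rintro (h | h) <;> exact h.1
    · intro hk
      by_contra hcon
      push Not at hcon
      obtain ⟨c1, c2⟩ := hcon
      have c1 := c1 hk
      have c2 := c2 hk
      have hkJ : k ∈ J := by
        simp only [hJ, mem_filter, mem_univ, true_and]
        refine ⟨hk, fun h0 => ?_⟩
        rw [h0, zero_mul, norm_zero] at c1
        exact absurd c1 (not_lt.2 (mul_nonneg hεpos.le (norm_nonneg _)))
      have h1 := hall k hkJ
      rw [hε2] at h1
      have h2 : (ε * ‖w i * P.eval (t i)‖) * (ε * ‖w j * Q.eval (t j)‖)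
          < ‖w k * P.eval (t k)‖ * ‖w k * Q.eval (t k)‖ := by
        exact mul_lt_mul'' c1 c2 (by positivity) (by positivity)
      have : (ε * ‖w i * P.eval (t i)‖) * (ε * ‖w j * Q.eval (t j)‖)
          = ε * ε * (‖w i * P.eval (t i)‖ * ‖w j * Q.eval (t j)‖) := by ring
      linarith
  have hZ : univ.filter (fun k => k ∉ I ∧ w k = 0) ⊆ TP ∩ TQ := by
    intro k hk
    rw [mem_filter] at hk
    simp only [hTP, hTQ, mem_inter, mem_filter, mem_univ, true_and]
    rw [hk.2.2, zero_mul, zero_mul, norm_zero]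
    exact ⟨⟨hk.2.1, by positivity⟩, hk.2.1, by positivity⟩
  have hcard : Fintype.card ι ≤ TP.card + TQ.card := by
    have h1 := card_union_add_card_inter TP TQ
    have h2 := card_le_card hZ
    have h3 : (univ.filter (fun k => k ∉ I)).card + I.card = Fintype.card ι := by
      have : univ.filter (fun k => k ∉ I) = Iᶜ := by ext; simp
      rw [this, card_compl]
      have := card_le_univ I
      omega
    rw [hU] at h1
    omega
  have dis : ∀ T : Finset ι, T ⊆ univ.filter (fun k => k ∉ I) → Disjoint T I := by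
    intro T hT
    rw [Finset.disjoint_left]
    intro k hk
    exact (mem_filter.1 (hT hk)).2
  rcases le_total TP.card TQ.card with h | h
  · refine ⟨Q, hQd, j, (mem_filter.1 hj).2.1, hjQ, TQ, by omega,
      dis TQ (hU ▸ subset_union_right), fun k hk => (mem_filter.1 hk).2.2⟩
  · refine ⟨P, hPd, i, (mem_filter.1 hi).2.1, hiP, TP, by omega,
      dis TP (hU ▸ subset_union_left), fun k hk => (mem_filter.1 hk).2.2⟩

end Pool.Agent.BalanWangRC
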