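import Pool.Agent.MP_686ee2_an.RC.Mat

/-!
The Balan-Wang bound for matrices carrying a weighted space of polynomials of degree less than `r` in the
column space or in the space of row relations.
-/

set_option autoImplicit false

namespace Pool.Agent.BalanWangRC

open Finset Polynomial

lemma eps_eq (r : ℕ) (hr : 2 ≤ r) :
    (((r - 1 : ℕ) : ℝ) - 1) / 24 = ((r : ℝ) - 2) / 24 := by
  rw [Nat.cast_sub (by omega)]
  push_cast
  ring

/-- Row relations. -/
theorem main_relations {M : ℕ} (hM : 1 ≤ M) (A : Matrix (Fin (2 * M - 1)) (Fin M) ℝ) (r : ℕ)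
    (hr : 2 ≤ r) (w t : Fin (2 * M - 1) → ℂ) (I : Finset (Fin (2 * M - 1)))
    (hI : I.card ≤ (univ.filter (fun k => k ∉ I ∧ w k = 0)).card)
    {k0 l0 : Fin (2 * M - 1)} (hk0 : k0 ∉ I) (hl0 : l0 ∉ I) (hk1 : w k0 ≠ 0) (hl1 : w l0 ≠ 0)
    (hkl : t k0 ≠ t l0)
    (h : ∀ j < r, ∃ c : Fin (2 * M - 1) → ℂ, (∀ k, k ∉ I → c k = w k * t k ^ j) ∧
      ∀ l, ∑ k, c k * (A k l : ℂ) = 0) :
    Concl A (M * (1 / 2 : ℝ) ^ (((r : ℝ) - 2) / 24)) := by
  classical
  obtain ⟨P, hPd, i, hiI, hiP, T, hT, hTI, hTε⟩ := half_small w t I (r - 1) (by omega) hI hk0 hl0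
    hk1 hl1 hkl
  rw [eps_eq r hr] at hTε
  set ε : ℝ := (1 / 2 : ℝ) ^ (((r : ℝ) - 2) / 24) with hε
  have hεpos : 0 < ε := Real.rpow_pos_of_pos (by norm_num) _
  choose! c hc1 hc2 using h
  -- the relation attached to `P`
  set d : Fin (2 * M - 1) → ℂ := fun k => ∑ j ∈ range r, P.coeff j * c j k with hd
  have hdk : ∀ k, k ∉ I → d k = w k * P.eval (t k) := by
    intro k hk
    rw [hd, eval_eq_sum_range' (n := r) (by omega), Finset.mul_sum]
    refine Finset.sum_congr rfl fun j hj => ?_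
    rw [hc1 j (Finset.mem_range.1 hj) k hk]
    ring
  have hdrel : ∀ l, ∑ k, d k * (A k l : ℂ) = 0 := by
    intro l
    simp only [hd, Finset.sum_mul]
    rw [Finset.sum_comm]
    refine Finset.sum_eq_zero fun j hj => ?_
    have := hc2 j (Finset.mem_range.1 hj) l
    calc ∑ k, P.coeff j * c j k * (A k l : ℂ) = P.coeff j * ∑ k, c j k * (A k l : ℂ) := by
          rw [Finset.mul_sum]; exact Finset.sum_congr rfl fun k _ => by ring
      _ = 0 := by rw [this, mul_zero]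
  obtain ⟨ks, -, hks⟩ := Finset.exists_max_image (univ : Finset (Fin (2 * M - 1)))
    (fun k => ‖d k‖) ⟨k0, Finset.mem_univ _⟩
  have hdi : 0 < ‖d i‖ := by rw [hdk i hiI]; exact norm_pos_iff.2 hiP
  have hdks : 0 < ‖d ks‖ := lt_of_lt_of_le hdi (hks i (Finset.mem_univ _))
  have hdks0 : d ks ≠ 0 := norm_pos_iff.1 hdks
  refine from_relation hM A (fun k => (d k / d ks).re) ks ?_ ?_ T ?_ ε hεpos.le ?_
  · rw [div_self hdks0, Complex.one_re]
  · intro l
    have h1 : ∑ k, (d k / d ks) * (A k l : ℂ) = 0 := by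
      have : ∀ k, (d k / d ks) * (A k l : ℂ) = (d k * (A k l : ℂ)) / d ks := fun k => by ring
      simp only [this]
      rw [← Finset.sum_div, hdrel l, zero_div]
    have h2 := congrArg Complex.re h1
    rw [Complex.re_sum] at h2
    simpa using h2
  · rw [Fintype.card_fin] at hT; omega
  · intro k hk
    have hkI : k ∉ I := fun hkI => (Finset.disjoint_left.1 hTI hk) hkI
    have h1 := hTε k hk
    rw [← hdk k hkI, ← hdk i hiI] at h1
    have h2 : ‖d i‖ ≤ ‖d ks‖ := hks i (Finset.mem_univ _)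
    calc |(d k / d ks).re| ≤ ‖d k / d ks‖ := Complex.abs_re_le_norm _
      _ = ‖d k‖ / ‖d ks‖ := norm_div _ _
      _ ≤ ε := by
          rw [div_le_iff₀ hdks]
          exact h1.trans (mul_le_mul_of_nonneg_left h2 hεpos.le)

/-- Measurement vectors. -/
theorem main_vectors {M : ℕ} (hM : 1 ≤ M) (A : Matrix (Fin (2 * M - 1)) (Fin M) ℝ) (r : ℕ)
    (hr : 2 ≤ r) (w t : Fin (2 * M - 1) → ℂ) (I : Finset (Fin (2 * M - 1)))
    (hI : I.card ≤ (univ.filter (fun k => k ∉ I ∧ w k = 0)).card)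
    {k0 l0 : Fin (2 * M - 1)} (hk0 : k0 ∉ I) (hl0 : l0 ∉ I) (hk1 : w k0 ≠ 0) (hl1 : w l0 ≠ 0)
    (hkl : t k0 ≠ t l0)
    (h : ∀ j < r, ∃ c : Fin M → ℂ, ∀ k, k ∉ I → ∑ l, (A k l : ℂ) * c l = w k * t k ^ j) :
    Concl A (M * (1 / 2 : ℝ) ^ (((r : ℝ) - 2) / 24)) := by
  classical
  obtain ⟨P, hPd, i, hiI, hiP, T, hT, hTI, hTε⟩ := half_small w t I (r - 1) (by omega) hI hk0 hl0
    hk1 hl1 hkl
  rw [eps_eq r hr] at hTε
  set ε : ℝ := (1 / 2 : ℝ) ^ (((r : ℝ) - 2) / 24) with hε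
  have hεpos : 0 < ε := Real.rpow_pos_of_pos (by norm_num) _
  choose! c hc using h
  set x : Fin M → ℂ := fun l => ∑ j ∈ range r, P.coeff j * c j l with hx
  set d : Fin (2 * M - 1) → ℂ := fun k => ∑ l, (A k l : ℂ) * x l with hd
  have hdk : ∀ k, k ∉ I → d k = w k * P.eval (t k) := by
    intro k hk
    rw [eval_eq_sum_range' (n := r) (by omega), Finset.mul_sum]
    simp only [hd, hx, Finset.mul_sum]
    rw [Finset.sum_comm]
    refine Finset.sum_congr rfl fun j hj => ?_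
    have := hc j (Finset.mem_range.1 hj) k hk
    calc ∑ l, (A k l : ℂ) * (P.coeff j * c j l) = P.coeff j * ∑ l, (A k l : ℂ) * c j l := by
          rw [Finset.mul_sum]; exact Finset.sum_congr rfl fun l _ => by ring
      _ = _ := by rw [this]; ring
  obtain ⟨ks, -, hks⟩ := Finset.exists_max_image (univ : Finset (Fin (2 * M - 1)))
    (fun k => ‖d k‖) ⟨k0, Finset.mem_univ _⟩
  have hdi : 0 < ‖d i‖ := by rw [hdk i hiI]; exact norm_pos_iff.2 hiP
  have hdks : 0 < ‖d ks‖ := lt_of_lt_of_le hdi (hks i (Finset.mem_univ _))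
  have hdks0 : d ks ≠ 0 := norm_pos_iff.1 hdks
  have hre : ∀ k, ∑ l, A k l * (x l / d ks).re = (d k / d ks).re := by
    intro k
    have h1 : d k / d ks = ∑ l, (A k l : ℂ) * (x l / d ks) := by
      simp only [hd]
      rw [Finset.sum_div]
      exact Finset.sum_congr rfl fun l _ => by ring
    rw [h1, Complex.re_sum]
    exact Finset.sum_congr rfl fun l _ => by simp
  refine from_vector hM A (fun l => (x l / d ks).re) ks ?_ T ?_ ε hεpos.le ?_
  · rw [hre ks, div_self hdks0, Complex.one_re]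
  · rw [Fintype.card_fin] at hT; omega
  · intro k hk
    rw [hre k]
    have hkI : k ∉ I := fun hkI => (Finset.disjoint_left.1 hTI hk) hkI
    have h1 := hTε k hk
    rw [← hdk k hkI, ← hdk i hiI] at h1
    have h2 : ‖d i‖ ≤ ‖d ks‖ := hks i (Finset.mem_univ _)
    calc |(d k / d ks).re| ≤ ‖d k / d ks‖ := Complex.abs_re_le_norm _
      _ = ‖d k‖ / ‖d ks‖ := norm_div _ _
      _ ≤ ε := by
          rw [div_le_iff₀ hdks]
          exact h1.trans (mul_le_mul_of_nonneg_left h2 hεpos.le)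

/-- **Lagrange identity.** -/
lemma lagrange_zero {ι : Type*} [DecidableEq ι] (J : Finset ι) (t : ι → ℂ)
    (ht : Set.InjOn t (J : Set ι)) (Q : ℂ[X]) (hQ : Q.natDegree + 1 < J.card) :
    ∑ k ∈ J, Q.eval (t k) / ∏ l ∈ J.erase k, (t k - t l) = 0 := by
  have h := Lagrange.coeff_eq_sum (s := J) (v := t) ht (P := Q)
    (lt_of_le_of_lt degree_le_natDegree (by exact_mod_cast (by omega : Q.natDegree < J.card)))
  rw [coeff_eq_zero_of_natDegree_lt (by omega)] at h
  exact h.symm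

/-- Rational curves: the rows with index in `J` are `A_k = v_k φ(t_k)` with `φ` a polynomial curve of
degree at most `|J| - 1 - r`; the other rows are arbitrary. -/
theorem main_curve {M : ℕ} (hM : 1 ≤ M) (A : Matrix (Fin (2 * M - 1)) (Fin M) ℝ) (r : ℕ)
    (hr : 2 ≤ r) (J : Finset (Fin (2 * M - 1))) (v t : Fin (2 * M - 1) → ℂ)
    (hv : ∀ k ∈ J, v k ≠ 0) (ht : Set.InjOn t (J : Set (Fin (2 * M - 1))))
    (φ : Fin M → ℂ[X]) (hφ : ∀ l, (φ l).natDegree + r + 1 ≤ J.card)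
    (hA : ∀ k ∈ J, ∀ l, (A k l : ℂ) = v k * (φ l).eval (t k)) :
    Concl A (M * (1 / 2 : ℝ) ^ (((r : ℝ) - 2) / 24)) := by
  classical
  set D : Fin (2 * M - 1) → ℂ := fun k => ∏ l ∈ J.erase k, (t k - t l) with hD
  have hDne : ∀ k ∈ J, D k ≠ 0 := by
    intro k hk
    rw [hD, Finset.prod_ne_zero_iff]
    intro l hl
    rw [Finset.mem_erase] at hl
    exact sub_ne_zero.2 fun e => hl.1 (ht (by exact_mod_cast hk) (by exact_mod_cast hl.2) e).symm
  have hJ : 2 < J.card := by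
    have := hφ ⟨0, hM⟩
    omega
  obtain ⟨k0, l0, -, hk0, hl0, -, hne, -, -⟩ := Finset.two_lt_card_iff.1 hJ
  set w : Fin (2 * M - 1) → ℂ := fun k => if k ∈ J then 1 / (v k * D k) else 0 with hw
  have hwJ : ∀ k ∈ J, w k = 1 / (v k * D k) := fun k hk => by simp [hw, hk]
  have hwne : ∀ k ∈ J, w k ≠ 0 := by
    intro k hk
    rw [hwJ k hk]
    exact div_ne_zero one_ne_zero (mul_ne_zero (hv k hk) (hDne k hk))
  refine main_relations hM A r hr w t ∅ (by simp) (k0 := k0) (l0 := l0) (by simp) (by simp)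
    (hwne k0 hk0) (hwne l0 hl0)
    (fun e => hne (ht (by exact_mod_cast hk0) (by exact_mod_cast hl0) e)) ?_
  intro j hj
  refine ⟨fun k => w k * t k ^ j, fun k _ => rfl, fun l => ?_⟩
  have h0 := lagrange_zero J t ht (X ^ j * φ l) (by
    have h1 := natDegree_mul_le (p := (X : ℂ[X]) ^ j) (q := φ l)
    rw [natDegree_X_pow] at h1
    have h2 := hφ l
    omega)
  rw [← h0, ← Finset.sum_subset (Finset.subset_univ J)]
  · refine Finset.sum_congr rfl fun k hk => ?_
    rw [hA k hk l, eval_mul, eval_pow, eval_X]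
    have := hv k hk
    have := hDne k hk
    change w k * t k ^ j * (v k * eval (t k) (φ l)) = t k ^ j * eval (t k) (φ l) / D k
    rw [hwJ k hk]
    field_simp
  · intro k _ hk
    simp [hw, hk]

end Pool.Agent.BalanWangRC
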