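import Pool.Agent.MP_686ee2_an.RC.Plane

/-!
Dispersion of the logarithmic distances of `n` distinct points of the plane, by averaging the planar lemma
over all permutations.
-/

set_option autoImplicit false

namespace Pool.Agent.BalanWangRC

open Finset

lemma exists_perm {α : Type*} [Fintype α] [DecidableEq α] {κ : Type*} (i j : κ → α)
    (hi : Function.Injective i) (hj : Function.Injective j) :
    ∃ τ : Equiv.Perm α, ∀ k, τ (i k) = j k := by
  classical
  let e : {x // x ∈ Set.range i} ≃ {x // x ∈ Set.range j} :=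
    (Equiv.ofInjective i hi).symm.trans (Equiv.ofInjective j hj)
  refine ⟨e.extendSubtype, fun k => ?_⟩
  rw [Equiv.extendSubtype_apply_of_mem e (i k) ⟨k, rfl⟩]
  have h1 : (Equiv.ofInjective i hi).symm ⟨i k, ⟨k, rfl⟩⟩ = k := by
    rw [Equiv.symm_apply_eq]; rfl
  change ((Equiv.ofInjective j hj) ((Equiv.ofInjective i hi).symm ⟨i k, ⟨k, rfl⟩⟩) : α) = j k
  rw [h1]
  rfl

lemma sum_perm_four {n : ℕ} (F : Fin n → Fin n → Fin n → Fin n → ℝ) (i j : Fin 4 → Fin n)
    (hi : Function.Injective i) (hj : Function.Injective j) :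
    ∑ σ : Equiv.Perm (Fin n), F (σ (i 0)) (σ (i 1)) (σ (i 2)) (σ (i 3))
      = ∑ σ : Equiv.Perm (Fin n), F (σ (j 0)) (σ (j 1)) (σ (j 2)) (σ (j 3)) := by
  obtain ⟨τ, hτ⟩ := exists_perm i j hi hj
  rw [← Equiv.sum_comp (Equiv.mulRight τ)
    (fun σ : Equiv.Perm (Fin n) => F (σ (i 0)) (σ (i 1)) (σ (i 2)) (σ (i 3)))]
  refine Finset.sum_congr rfl fun σ _ => ?_
  simp only [Equiv.coe_mulRight, Equiv.Perm.coe_mul, Function.comp_apply, hτ]

lemma sum_perm_three {n : ℕ} (F : Fin n → Fin n → Fin n → ℝ) (i j : Fin 3 → Fin n)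
    (hi : Function.Injective i) (hj : Function.Injective j) :
    ∑ σ : Equiv.Perm (Fin n), F (σ (i 0)) (σ (i 1)) (σ (i 2))
      = ∑ σ : Equiv.Perm (Fin n), F (σ (j 0)) (σ (j 1)) (σ (j 2)) := by
  obtain ⟨τ, hτ⟩ := exists_perm i j hi hj
  rw [← Equiv.sum_comp (Equiv.mulRight τ)
    (fun σ : Equiv.Perm (Fin n) => F (σ (i 0)) (σ (i 1)) (σ (i 2)))]
  refine Finset.sum_congr rfl fun σ _ => ?_
  simp only [Equiv.coe_mulRight, Equiv.Perm.coe_mul, Function.comp_apply, hτ]

/-- Averaging: if for all `a ≠ i` the sum over the other indices is at most `Λ`, then the permutation sum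
of one term is at most `n! Λ / (n - 2)`. -/
lemma sum_perm_le {n : ℕ} (F : Fin n → Fin n → Fin n → ℝ) (Λ : ℝ)
    (h : ∀ a i : Fin n, a ≠ i →
      ∑ k ∈ univ.filter (fun k => k ≠ a ∧ k ≠ i), F a i k ≤ Λ)
    (i0 i1 i2 : Fin n) (h01 : i0 ≠ i1) (h02 : i2 ≠ i0) (h12 : i2 ≠ i1) :
    ((n : ℝ) - 2) * ∑ σ : Equiv.Perm (Fin n), F (σ i0) (σ i1) (σ i2) ≤ (n.factorial : ℝ) * Λ := by
  have hn : (univ.filter (fun k : Fin n => k ≠ i0 ∧ k ≠ i1)).card = n - 2 := by
    have : univ.filter (fun k : Fin n => k ≠ i0 ∧ k ≠ i1) = (univ.erase i0).erase i1 := by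
      ext k; simp [and_comm]
    rw [this, Finset.card_erase_of_mem (by simp [h01.symm]), Finset.card_erase_of_mem (mem_univ _),
      Finset.card_univ, Fintype.card_fin]
    omega
  have hn2 : 2 ≤ n := by
    have : (({i0, i1} : Finset (Fin n))).card ≤ Fintype.card (Fin n) := Finset.card_le_univ _
    rw [Finset.card_pair h01, Fintype.card_fin] at this
    exact this
  have h1 : ((n : ℝ) - 2) * ∑ σ : Equiv.Perm (Fin n), F (σ i0) (σ i1) (σ i2)
      = ∑ k ∈ univ.filter (fun k : Fin n => k ≠ i0 ∧ k ≠ i1),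
          ∑ σ : Equiv.Perm (Fin n), F (σ i0) (σ i1) (σ k) := by
    have hcong : ∀ k ∈ univ.filter (fun k : Fin n => k ≠ i0 ∧ k ≠ i1),
        ∑ σ : Equiv.Perm (Fin n), F (σ i0) (σ i1) (σ k)
          = ∑ σ : Equiv.Perm (Fin n), F (σ i0) (σ i1) (σ i2) := by
      intro k hk
      simp only [mem_filter, mem_univ, true_and] at hk
      have hi : Function.Injective ![i0, i1, k] := by
        intro a b
        fin_cases a <;> fin_cases b <;> simp [h01, h01.symm, hk.1, hk.2, hk.1.symm, hk.2.symm]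
      have hj : Function.Injective ![i0, i1, i2] := by
        intro a b
        fin_cases a <;> fin_cases b <;> simp [h01, h01.symm, h02, h12, h02.symm, h12.symm]
      exact sum_perm_three F ![i0, i1, k] ![i0, i1, i2] hi hj
    rw [Finset.sum_congr rfl hcong, Finset.sum_const, hn, nsmul_eq_mul, Nat.cast_sub hn2]
    norm_num
  rw [h1, Finset.sum_comm]
  calc ∑ σ : Equiv.Perm (Fin n), ∑ k ∈ univ.filter (fun k : Fin n => k ≠ i0 ∧ k ≠ i1),
          F (σ i0) (σ i1) (σ k)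
      = ∑ σ : Equiv.Perm (Fin n), ∑ k ∈ univ.filter (fun k : Fin n => k ≠ σ i0 ∧ k ≠ σ i1),
          F (σ i0) (σ i1) k := by
        refine Finset.sum_congr rfl fun σ _ => ?_
        refine Finset.sum_bij (fun k _ => σ k) ?_ ?_ ?_ ?_
        · intro k hk
          simp only [mem_filter, mem_univ, true_and] at hk ⊢
          exact ⟨fun h => hk.1 (σ.injective h), fun h => hk.2 (σ.injective h)⟩
        · intro k _ l _ h
          exact σ.injective h
        · intro k hk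
          simp only [mem_filter, mem_univ, true_and] at hk
          refine ⟨σ.symm k, ?_, by simp⟩
          simp only [mem_filter, mem_univ, true_and]
          exact ⟨fun h => hk.1 (by rw [← h]; simp), fun h => hk.2 (by rw [← h]; simp)⟩
        · intro k _; rfl
    _ ≤ ∑ _σ : Equiv.Perm (Fin n), Λ :=
        Finset.sum_le_sum fun σ _ => h (σ i0) (σ i1) (fun e => h01 (σ.injective e))
    _ = (n.factorial : ℝ) * Λ := by
        rw [Finset.sum_const, Finset.card_univ, Fintype.card_perm, Fintype.card_fin, nsmul_eq_mul]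

lemma log_inv_sub {z z' e : ℂ} (h : z ≠ z') (h1 : z ≠ e) (h2 : z' ≠ e) :
    Real.log ‖(z - e)⁻¹ - (z' - e)⁻¹‖
      = Real.log ‖z - z'‖ - Real.log ‖e - z‖ - Real.log ‖e - z'‖ := by
  have a1 : z - e ≠ 0 := sub_ne_zero.2 h1
  have a2 : z' - e ≠ 0 := sub_ne_zero.2 h2
  have a3 : z - z' ≠ 0 := sub_ne_zero.2 h
  have : (z - e)⁻¹ - (z' - e)⁻¹ = -(z - z') / ((e - z) * (e - z')) := by
    have a4 : e - z ≠ 0 := sub_ne_zero.2 h1.symm
    have a5 : e - z' ≠ 0 := sub_ne_zero.2 h2.symm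
    field_simp
    ring
  have b1 : ‖e - z‖ ≠ 0 := norm_ne_zero_iff.2 (sub_ne_zero.2 h1.symm)
  have b2 : ‖e - z'‖ ≠ 0 := norm_ne_zero_iff.2 (sub_ne_zero.2 h2.symm)
  have b3 : ‖z - z'‖ ≠ 0 := norm_ne_zero_iff.2 a3
  rw [this, norm_div, norm_neg, norm_mul, Real.log_div b3 (mul_ne_zero b1 b2), Real.log_mul b1 b2]
  ring

/-- The comparison term. -/
noncomputable def phi {n : ℕ} (t : Fin n → ℂ) (a i k l : Fin n) : ℝ :=
  |(Real.log ‖t i - t k‖ - Real.log ‖t a - t k‖) - (Real.log ‖t i - t l‖ - Real.log ‖t a - t l‖)|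

lemma twelve {n : ℕ} (t : Fin n → ℂ) (ht : Function.Injective t) (e z0 z1 z2 z3 : Fin n)
    (he0 : e ≠ z0) (he1 : e ≠ z1) (he2 : e ≠ z2) (he3 : e ≠ z3)
    (h01 : z0 ≠ z1) (h02 : z0 ≠ z2) (h03 : z0 ≠ z3) (h12 : z1 ≠ z2) (h13 : z1 ≠ z3)
    (h23 : z2 ≠ z3) :
    2 * Real.log 2 ≤
      phi t e z0 z1 z2 + phi t e z0 z1 z3 + phi t e z0 z2 z3 +
      phi t e z1 z0 z2 + phi t e z1 z0 z3 + phi t e z1 z2 z3 +
      phi t e z2 z0 z1 + phi t e z2 z0 z3 + phi t e z2 z1 z3 +
      phi t e z3 z0 z1 + phi t e z3 z0 z2 + phi t e z3 z1 z2 := by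
  have T : ∀ {x y : Fin n}, x ≠ y → t x ≠ t y := fun h e => h (ht e)
  have I : ∀ {x y : Fin n}, x ≠ y → e ≠ x → e ≠ y → (t x - t e)⁻¹ ≠ (t y - t e)⁻¹ := by
    intro x y h _ _ e'
    have := inv_injective e'
    exact T h (by linear_combination this)
  have key := plane_tv (I h01 he0 he1) (I h02 he0 he2) (I h03 he0 he3) (I h12 he1 he2)
    (I h13 he1 he3) (I h23 he2 he3)
  rw [log_inv_sub (T h01) (T he0.symm) (T he1.symm), log_inv_sub (T h02) (T he0.symm) (T he2.symm),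
    log_inv_sub (T h03) (T he0.symm) (T he3.symm), log_inv_sub (T h12) (T he1.symm) (T he2.symm),
    log_inv_sub (T h13) (T he1.symm) (T he3.symm), log_inv_sub (T h23) (T he2.symm) (T he3.symm)]
    at key
  refine key.trans (le_of_eq ?_)
  unfold tv phi
  rw [norm_sub_rev (t z1) (t z0), norm_sub_rev (t z2) (t z0), norm_sub_rev (t z3) (t z0),
    norm_sub_rev (t z2) (t z1), norm_sub_rev (t z3) (t z1), norm_sub_rev (t z3) (t z2)]
  congr 1
  · congr 1
    · congr 1
      · congr 1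
        · congr 1
          · congr 1
            · congr 1
              · congr 1
                · congr 1
                  · congr 1
                    · congr 1
                      · congr 1; ring
                      · congr 1; ring
                    · congr 1; ring
                  · congr 1; ring
                · congr 1; ring
              · congr 1; ring
            · congr 1; ring
          · congr 1; ring
        · congr 1; ring
      · congr 1; ring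
    · congr 1; ring
  · congr 1; ring

/-- **Dispersion.** -/
lemma dispersion {n : ℕ} (hn : 5 ≤ n) (t : Fin n → ℂ) (ht : Function.Injective t) (Λ : ℝ)
    (h : ∀ a i : Fin n, a ≠ i → ∃ c : ℝ, ∑ k ∈ univ.filter (fun k => k ≠ a ∧ k ≠ i),
      |(Real.log ‖t i - t k‖ - Real.log ‖t a - t k‖) - c| ≤ Λ) :
    ((n : ℝ) - 2) * Real.log 2 ≤ 12 * Λ := by
  classical
  choose! c hc using h
  set i0 : Fin n := ⟨0, by omega⟩ with hi0
  set i1 : Fin n := ⟨1, by omega⟩ with hi1
  set i2 : Fin n := ⟨2, by omega⟩ with hi2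
  set i3 : Fin n := ⟨3, by omega⟩ with hi3
  set i4 : Fin n := ⟨4, by omega⟩ with hi4
  have ne : ∀ a b : ℕ, ∀ ha : a < n, ∀ hb : b < n, a ≠ b → (⟨a, ha⟩ : Fin n) ≠ ⟨b, hb⟩ := by
    intro a b ha hb h e
    exact h (by simpa using e)
  have e01 : i0 ≠ i1 := ne 0 1 _ _ (by norm_num)
  have e02 : i0 ≠ i2 := ne 0 2 _ _ (by norm_num)
  have e03 : i0 ≠ i3 := ne 0 3 _ _ (by norm_num)
  have e04 : i0 ≠ i4 := ne 0 4 _ _ (by norm_num)
  have e12 : i1 ≠ i2 := ne 1 2 _ _ (by norm_num)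
  have e13 : i1 ≠ i3 := ne 1 3 _ _ (by norm_num)
  have e14 : i1 ≠ i4 := ne 1 4 _ _ (by norm_num)
  have e23 : i2 ≠ i3 := ne 2 3 _ _ (by norm_num)
  have e24 : i2 ≠ i4 := ne 2 4 _ _ (by norm_num)
  have e34 : i3 ≠ i4 := ne 3 4 _ _ (by norm_num)
  set S : ℝ := ∑ σ : Equiv.Perm (Fin n), phi t (σ i0) (σ i1) (σ i2) (σ i3) with hS
  have inj4 : ∀ {a b c d : Fin n}, a ≠ b → a ≠ c → a ≠ d → b ≠ c → b ≠ d → c ≠ d →
      Function.Injective ![a, b, c, d] := by
    intro a b c d h1 h2 h3 h4 h5 h6 x y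
    fin_cases x <;> fin_cases y <;>
      simp [h1, h2, h3, h4, h5, h6, h1.symm, h2.symm, h3.symm, h4.symm, h5.symm, h6.symm]
  have eqS : ∀ {a b c d : Fin n}, a ≠ b → a ≠ c → a ≠ d → b ≠ c → b ≠ d → c ≠ d →
      ∑ σ : Equiv.Perm (Fin n), phi t (σ a) (σ b) (σ c) (σ d) = S := by
    intro a b c d h1 h2 h3 h4 h5 h6
    exact sum_perm_four (phi t) ![a, b, c, d] ![i0, i1, i2, i3] (inj4 h1 h2 h3 h4 h5 h6)
      (inj4 e01 e02 e03 e12 e13 e23)
  -- lower bound
  have lower : (n.factorial : ℝ) * (2 * Real.log 2) ≤ 12 * S := by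
    have h1 : ∑ _σ : Equiv.Perm (Fin n), (2 * Real.log 2) = (n.factorial : ℝ) * (2 * Real.log 2) := by
      rw [Finset.sum_const, Finset.card_univ, Fintype.card_perm, Fintype.card_fin, nsmul_eq_mul]
    rw [← h1]
    have h2 := Finset.sum_le_sum (s := (univ : Finset (Equiv.Perm (Fin n)))) fun σ _ =>
      twelve t ht (σ i0) (σ i1) (σ i2) (σ i3) (σ i4)
        (σ.injective.ne e01) (σ.injective.ne e02) (σ.injective.ne e03) (σ.injective.ne e04)
        (σ.injective.ne e12) (σ.injective.ne e13) (σ.injective.ne e14) (σ.injective.ne e23)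
        (σ.injective.ne e24) (σ.injective.ne e34)
    refine h2.trans (le_of_eq ?_)
    simp only [Finset.sum_add_distrib]
    rw [eqS e01 e02 e03 e12 e13 e23, eqS e01 e02 e04 e12 e14 e24, eqS e01 e03 e04 e13 e14 e34,
      eqS e02 e01 e03 e12.symm e23 e13, eqS e02 e01 e04 e12.symm e24 e14,
      eqS e02 e03 e04 e23 e24 e34,
      eqS e03 e01 e02 e13.symm e23.symm e12, eqS e03 e01 e04 e13.symm e34 e14,
      eqS e03 e02 e04 e23.symm e34 e24,
      eqS e04 e01 e02 e14.symm e24.symm e12, eqS e04 e01 e03 e14.symm e34.symm e13,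
      eqS e04 e02 e03 e24.symm e34.symm e23]
    ring
  -- upper bound
  set F : Fin n → Fin n → Fin n → ℝ := fun a i k =>
    |(Real.log ‖t i - t k‖ - Real.log ‖t a - t k‖) - c a i| with hF
  have u1 := sum_perm_le F Λ (fun a i hai => hc a i hai) i0 i1 i2 e01 e02.symm e12.symm
  have u2 := sum_perm_le F Λ (fun a i hai => hc a i hai) i0 i1 i3 e01 e03.symm e13.symm
  have upper : S ≤ ∑ σ : Equiv.Perm (Fin n), F (σ i0) (σ i1) (σ i2)
      + ∑ σ : Equiv.Perm (Fin n), F (σ i0) (σ i1) (σ i3) := by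
    rw [← Finset.sum_add_distrib]
    refine Finset.sum_le_sum fun σ _ => ?_
    simp only [phi, hF]
    have := abs_sub_le (Real.log ‖t (σ i1) - t (σ i2)‖ - Real.log ‖t (σ i0) - t (σ i2)‖)
      (c (σ i0) (σ i1)) (Real.log ‖t (σ i1) - t (σ i3)‖ - Real.log ‖t (σ i0) - t (σ i3)‖)
    rw [abs_sub_comm (c (σ i0) (σ i1))] at this
    exact this
  have hfac : (0 : ℝ) < (n.factorial : ℝ) := by exact_mod_cast Nat.factorial_pos n
  have hn' : (0 : ℝ) ≤ (n : ℝ) - 2 := by
    have : (5 : ℝ) ≤ (n : ℝ) := by exact_mod_cast hn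
    linarith
  have h3 : ((n : ℝ) - 2) * ((n.factorial : ℝ) * (2 * Real.log 2)) ≤ 12 * (2 * ((n.factorial : ℝ) * Λ)) := by
    calc ((n : ℝ) - 2) * ((n.factorial : ℝ) * (2 * Real.log 2)) ≤ ((n : ℝ) - 2) * (12 * S) :=
          mul_le_mul_of_nonneg_left lower hn'
      _ = 12 * (((n : ℝ) - 2) * S) := by ring
      _ ≤ 12 * (((n : ℝ) - 2) * (∑ σ : Equiv.Perm (Fin n), F (σ i0) (σ i1) (σ i2)
            + ∑ σ : Equiv.Perm (Fin n), F (σ i0) (σ i1) (σ i3))) := by
          have := mul_le_mul_of_nonneg_left upper hn'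
          linarith
      _ ≤ 12 * (2 * ((n.factorial : ℝ) * Λ)) := by linarith
  have h4 : (n.factorial : ℝ) * (((n : ℝ) - 2) * Real.log 2) ≤ (n.factorial : ℝ) * (12 * Λ) := by
    linarith
  exact le_of_mul_le_mul_left h4 hfac

end Pool.Agent.BalanWangRC
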