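import Pool.Agent.MP_686ee2_an.RC.Count

/-!
From an almost vanishing relation (or an almost vanishing measurement vector) to the smallest singular
value of a submatrix.
-/

set_option autoImplicit false

namespace Pool.Agent.BalanWangRC

open Finset Polynomial Matrix

/-- Normalisation. -/
lemma normalise {ι : Type*} {M : ℕ} (A : ι → Fin M → ℝ) (S : Finset ι)
    (x0 : Fin M → ℝ) (hx0 : 0 < ∑ j, x0 j ^ 2) (η : ℝ)
    (h : ∑ i ∈ S, (∑ j, A i j * x0 j) ^ 2 ≤ η * ∑ j, x0 j ^ 2) :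
    ∃ x : Fin M → ℝ, ∑ j, x j ^ 2 = 1 ∧ ∑ i ∈ S, (∑ j, A i j * x j) ^ 2 ≤ η := by
  set s : ℝ := Real.sqrt (∑ j, x0 j ^ 2) with hs
  have hspos : 0 < s := Real.sqrt_pos.2 hx0
  have hs2 : s ^ 2 = ∑ j, x0 j ^ 2 := Real.sq_sqrt hx0.le
  refine ⟨fun j => x0 j / s, ?_, ?_⟩
  · simp only [div_pow]
    rw [← Finset.sum_div, ← hs2]
    exact div_self (pow_pos hspos 2).ne'
  · have : ∀ i, (∑ j, A i j * (x0 j / s)) ^ 2 = (∑ j, A i j * x0 j) ^ 2 / s ^ 2 := by
      intro i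
      rw [← div_pow, Finset.sum_div]
      congr 1
      exact Finset.sum_congr rfl fun j _ => by ring
    simp only [this]
    rw [← Finset.sum_div, div_le_iff₀ (pow_pos hspos 2), hs2]
    exact h

lemma square_fin {M : ℕ} (B : Matrix (Fin M) (Fin M) ℝ) (u : Fin M → ℝ)
    (hu : 0 < ∑ i, u i ^ 2) (η : ℝ)
    (h : ∑ j, (∑ i, u i * B i j) ^ 2 ≤ η * ∑ i, u i ^ 2) :
    ∃ x0 : Fin M → ℝ, 0 < ∑ j, x0 j ^ 2 ∧
      ∑ i, (∑ j, B i j * x0 j) ^ 2 ≤ η * ∑ j, x0 j ^ 2 := by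
  have hη : 0 ≤ η := by
    by_contra hneg
    push Not at hneg
    have h1 : 0 ≤ ∑ j, (∑ i, u i * B i j) ^ 2 := Finset.sum_nonneg fun _ _ => sq_nonneg _
    nlinarith
  have pos_of_ne : ∀ x : Fin M → ℝ, x ≠ 0 → 0 < ∑ j, x j ^ 2 := by
    intro x hx
    obtain ⟨j, hj⟩ : ∃ j, x j ≠ 0 := by
      by_contra hcon
      push Not at hcon
      exact hx (funext hcon)
    exact Finset.sum_pos' (fun _ _ => sq_nonneg _) ⟨j, Finset.mem_univ _, by positivity⟩
  by_cases hdet : B.det = 0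
  · obtain ⟨x, hx, hBx⟩ := Matrix.exists_mulVec_eq_zero_iff.2 hdet
    refine ⟨x, pos_of_ne x hx, ?_⟩
    have : ∀ i, ∑ j, B i j * x j = 0 := fun i => congrFun hBx i
    simp only [this]
    have := pos_of_ne x hx
    simp only [ne_eq, OfNat.ofNat_ne_zero, not_false_eq_true, zero_pow, Finset.sum_const_zero]
    positivity
  · have hunit : IsUnit B.det := isUnit_iff_ne_zero.2 hdet
    set x := B⁻¹ *ᵥ u with hx
    have hBx : B *ᵥ x = u := by
      rw [hx, Matrix.mulVec_mulVec, Matrix.mul_nonsing_inv B hunit, Matrix.one_mulVec]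
    have hBxi : ∀ i, ∑ j, B i j * x j = u i := fun i => congrFun hBx i
    have hx0 : x ≠ 0 := by
      intro h0
      rw [h0, Matrix.mulVec_zero] at hBx
      rw [← hBx] at hu
      simp at hu
    refine ⟨x, pos_of_ne x hx0, ?_⟩
    simp only [hBxi]
    have e1 : ∑ i, u i ^ 2 = ∑ j, (∑ i, u i * B i j) * x j := by
      have : ∀ i, u i ^ 2 = ∑ j, u i * B i j * x j := by
        intro i
        rw [pow_two]
        nth_rewrite 2 [← hBxi i]
        rw [Finset.mul_sum]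
        exact Finset.sum_congr rfl fun j _ => by ring
      rw [Finset.sum_congr rfl fun i _ => this i, Finset.sum_comm]
      exact Finset.sum_congr rfl fun j _ => by rw [Finset.sum_mul]
    have e2 : (∑ i, u i ^ 2) ^ 2 ≤ (∑ j, (∑ i, u i * B i j) ^ 2) * ∑ j, x j ^ 2 := by
      calc (∑ i, u i ^ 2) ^ 2 = (∑ j, (∑ i, u i * B i j) * x j) ^ 2 := by rw [← e1]
        _ ≤ _ := Finset.sum_mul_sq_le_sq_mul_sq _ _ _
    have hxx := pos_of_ne x hx0
    have e3 : (∑ i, u i ^ 2) ^ 2 ≤ (∑ i, u i ^ 2) * (η * ∑ j, x j ^ 2) := by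
      calc (∑ i, u i ^ 2) ^ 2 ≤ (∑ j, (∑ i, u i * B i j) ^ 2) * ∑ j, x j ^ 2 := e2
        _ ≤ (η * ∑ i, u i ^ 2) * ∑ j, x j ^ 2 := mul_le_mul_of_nonneg_right h hxx.le
        _ = _ := by ring
    rw [pow_two] at e3
    exact le_of_mul_le_mul_left e3 hu

/-- A set of `M` rows carrying an almost vanishing combination has a small singular value. -/
lemma square {ι : Type*} [DecidableEq ι] {M : ℕ} (A : ι → Fin M → ℝ) (S : Finset ι)
    (hS : S.card = M) (u : ι → ℝ) (hu : 1 ≤ ∑ i ∈ S, u i ^ 2) (η : ℝ)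
    (h : ∑ j, (∑ i ∈ S, u i * A i j) ^ 2 ≤ η) :
    ∃ x : Fin M → ℝ, ∑ j, x j ^ 2 = 1 ∧ ∑ i ∈ S, (∑ j, A i j * x j) ^ 2 ≤ η := by
  have hη : 0 ≤ η := le_trans (Finset.sum_nonneg fun _ _ => sq_nonneg _) h
  set e : S ≃ Fin M := S.equivFinOfCardEq hS with he
  have conv : ∀ f : ι → ℝ, ∑ i : Fin M, f (e.symm i : ι) = ∑ i ∈ S, f i := by
    intro f
    rw [← Finset.sum_coe_sort S f]
    exact Equiv.sum_comp e.symm (fun i : S => f i)
  obtain ⟨x0, hx0, hx1⟩ := square_fin (fun i j => A (e.symm i : ι) j) (fun i => u (e.symm i : ι))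
    (by rw [conv fun i => u i ^ 2]; linarith) η (by
      rw [conv fun i => u i ^ 2]
      have : ∀ j, ∑ i : Fin M, u (e.symm i : ι) * A (e.symm i : ι) j = ∑ i ∈ S, u i * A i j :=
        fun j => conv fun i => u i * A i j
      simp only [this]
      refine h.trans ?_
      nlinarith)
  rw [conv fun i => (∑ j, A i j * x0 j) ^ 2] at hx1
  exact normalise A S x0 hx0 η hx1

/-- The conclusion of the Balan-Wang conjecture for the matrix `A` with the bound `b · max ‖A_k‖`. -/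
def Concl {M : ℕ} (A : Matrix (Fin (2 * M - 1)) (Fin M) ℝ) (b : ℝ) : Prop :=
  ∃ S : Finset (Fin (2 * M - 1)),
    Module.finrank ℝ
        (Submodule.span ℝ
          (Set.range (fun i : {i : Fin (2 * M - 1) // i ∉ S} => A i.1))) < M ∧
    ∃ x : Fin M → ℝ, ∑ j, x j ^ 2 = 1 ∧
      ∃ k : Fin (2 * M - 1),
        Real.sqrt (∑ i ∈ S, (∑ j, A i j * x j) ^ 2) ≤ b * Real.sqrt (∑ j, A k j ^ 2)

lemma rank_lt {M : ℕ} (hM : 1 ≤ M) (A : Matrix (Fin (2 * M - 1)) (Fin M) ℝ)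
    (S : Finset (Fin (2 * M - 1))) (hS : S.card = M) :
    Module.finrank ℝ
        (Submodule.span ℝ
          (Set.range (fun i : {i : Fin (2 * M - 1) // i ∉ S} => A i.1))) < M := by
  classical
  have h1 := finrank_range_le_card (R := ℝ)
    (b := fun i : {i : Fin (2 * M - 1) // i ∉ S} => A i.1)
  have h2 : Fintype.card {i : Fin (2 * M - 1) // i ∉ S} = M - 1 := by
    rw [Fintype.card_subtype_compl, Fintype.card_fin, Fintype.card_coe, hS]
    omega
  rw [h2] at h1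
  unfold Set.finrank at h1
  omega

/-- From an almost vanishing linear relation between the rows. -/
lemma from_relation {M : ℕ} (hM : 1 ≤ M) (A : Matrix (Fin (2 * M - 1)) (Fin M) ℝ)
    (z : Fin (2 * M - 1) → ℝ) (k0 : Fin (2 * M - 1)) (hz : z k0 = 1)
    (hrel : ∀ l, ∑ k, z k * A k l = 0) (T : Finset (Fin (2 * M - 1))) (hT : M ≤ T.card)
    (ε : ℝ) (hε : 0 ≤ ε) (hTε : ∀ k ∈ T, |z k| ≤ ε) : Concl A (M * ε) := by
  obtain ⟨T1, hT1, hT1c⟩ := Finset.exists_subset_card_eq (s := T.erase k0) (n := M - 1) (by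
    have := Finset.pred_card_le_card_erase (s := T) (a := k0)
    omega)
  have hk0T1 : k0 ∉ T1 := fun h => (Finset.notMem_erase k0 T) (hT1 h)
  have hScard : (T1ᶜ).card = M := by
    rw [Finset.card_compl, Fintype.card_fin, hT1c]; omega
  obtain ⟨ks, -, hks⟩ := Finset.exists_max_image (univ : Finset (Fin (2 * M - 1)))
    (fun k => ∑ j, A k j ^ 2) ⟨k0, Finset.mem_univ _⟩
  set a : ℝ := ∑ j, A ks j ^ 2 with ha
  have ha0 : 0 ≤ a := Finset.sum_nonneg fun _ _ => sq_nonneg _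
  obtain ⟨x, hx1, hx2⟩ := square A (T1ᶜ) hScard z (by
      have : z k0 ^ 2 ≤ ∑ i ∈ T1ᶜ, z i ^ 2 :=
        Finset.single_le_sum (f := fun i => z i ^ 2) (fun _ _ => sq_nonneg _)
          (Finset.mem_compl.2 hk0T1)
      rw [hz] at this
      linarith) (((M : ℝ) - 1) ^ 2 * ε ^ 2 * a) (by
      have h1 : ∀ j, ∑ i ∈ T1ᶜ, z i * A i j = -∑ i ∈ T1, z i * A i j := by
        intro j
        have := Finset.sum_add_sum_compl T1 (fun i => z i * A i j)
        rw [hrel j] at this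
        linarith
      have h2 : ∀ j, (∑ i ∈ T1ᶜ, z i * A i j) ^ 2 ≤ (∑ i ∈ T1, z i ^ 2) * ∑ i ∈ T1, A i j ^ 2 := by
        intro j
        rw [h1, neg_sq]
        exact Finset.sum_mul_sq_le_sq_mul_sq _ _ _
      calc ∑ j, (∑ i ∈ T1ᶜ, z i * A i j) ^ 2
          ≤ ∑ j, (∑ i ∈ T1, z i ^ 2) * ∑ i ∈ T1, A i j ^ 2 := Finset.sum_le_sum fun j _ => h2 j
        _ = (∑ i ∈ T1, z i ^ 2) * ∑ i ∈ T1, ∑ j, A i j ^ 2 := by
            rw [← Finset.mul_sum, Finset.sum_comm]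
        _ ≤ (∑ _i ∈ T1, ε ^ 2) * ∑ _i ∈ T1, a := by
            refine mul_le_mul ?_ ?_ ?_ ?_
            · refine Finset.sum_le_sum fun i hi => ?_
              have := hTε i (Finset.mem_of_mem_erase (hT1 hi))
              rw [← sq_abs (z i)]
              exact pow_le_pow_left₀ (abs_nonneg _) this 2
            · exact Finset.sum_le_sum fun i _ => hks i (Finset.mem_univ _)
            · exact Finset.sum_nonneg fun _ _ => Finset.sum_nonneg fun _ _ => sq_nonneg _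
            · exact Finset.sum_nonneg fun _ _ => sq_nonneg _
        _ = ((M : ℝ) - 1) ^ 2 * ε ^ 2 * a := by
            rw [Finset.sum_const, Finset.sum_const, hT1c, nsmul_eq_mul, nsmul_eq_mul,
              Nat.cast_sub hM]
            push_cast
            ring)
  refine ⟨T1ᶜ, rank_lt hM A _ hScard, x, hx1, ks, ?_⟩
  have hM' : (1 : ℝ) ≤ M := by exact_mod_cast hM
  rw [← ha]
  calc Real.sqrt (∑ i ∈ T1ᶜ, (∑ j, A i j * x j) ^ 2)
      ≤ Real.sqrt ((((M : ℝ) - 1) * ε) ^ 2 * a) := Real.sqrt_le_sqrt (by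
        rw [mul_pow]; exact hx2)
    _ = (((M : ℝ) - 1) * ε) * Real.sqrt a := by
        rw [Real.sqrt_mul (sq_nonneg _), Real.sqrt_sq (mul_nonneg (by linarith) hε)]
    _ ≤ M * ε * Real.sqrt a := by
        refine mul_le_mul_of_nonneg_right ?_ (Real.sqrt_nonneg _)
        exact mul_le_mul_of_nonneg_right (by linarith) hε

/-- From an almost vanishing measurement vector. -/
lemma from_vector {M : ℕ} (hM : 1 ≤ M) (A : Matrix (Fin (2 * M - 1)) (Fin M) ℝ)
    (x0 : Fin M → ℝ) (k0 : Fin (2 * M - 1)) (hz : ∑ j, A k0 j * x0 j = 1)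
    (T : Finset (Fin (2 * M - 1))) (hT : M ≤ T.card)
    (ε : ℝ) (hε : 0 ≤ ε) (hTε : ∀ k ∈ T, |∑ j, A k j * x0 j| ≤ ε) : Concl A (M * ε) := by
  obtain ⟨S, hST, hSc⟩ := Finset.exists_subset_card_eq hT
  have hcs : 1 ≤ (∑ j, A k0 j ^ 2) * ∑ j, x0 j ^ 2 := by
    have := Finset.sum_mul_sq_le_sq_mul_sq univ (fun j => A k0 j) x0
    rw [hz] at this
    linarith
  have ha0 : 0 ≤ ∑ j, A k0 j ^ 2 := Finset.sum_nonneg fun _ _ => sq_nonneg _
  have hx0 : 0 < ∑ j, x0 j ^ 2 := by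
    rcases lt_or_eq_of_le (Finset.sum_nonneg fun (j : Fin M) _ => sq_nonneg (x0 j)) with h | h
    · exact h
    · rw [← h, mul_zero] at hcs; linarith
  obtain ⟨x, hx1, hx2⟩ := normalise A S x0 hx0 (M * ε ^ 2 * ∑ j, A k0 j ^ 2) (by
    calc ∑ i ∈ S, (∑ j, A i j * x0 j) ^ 2 ≤ ∑ _i ∈ S, ε ^ 2 := by
          refine Finset.sum_le_sum fun i hi => ?_
          rw [← sq_abs]
          exact pow_le_pow_left₀ (abs_nonneg _) (hTε i (hST hi)) 2
      _ = M * ε ^ 2 * 1 := by rw [Finset.sum_const, hSc, nsmul_eq_mul, mul_one]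
      _ ≤ M * ε ^ 2 * ((∑ j, A k0 j ^ 2) * ∑ j, x0 j ^ 2) :=
          mul_le_mul_of_nonneg_left hcs (by positivity)
      _ = _ := by ring)
  refine ⟨S, rank_lt hM A _ hSc, x, hx1, k0, ?_⟩
  have hM' : (1 : ℝ) ≤ M := by exact_mod_cast hM
  calc Real.sqrt (∑ i ∈ S, (∑ j, A i j * x j) ^ 2)
      ≤ Real.sqrt ((M * ε) ^ 2 * ∑ j, A k0 j ^ 2) := Real.sqrt_le_sqrt (hx2.trans (by
        refine mul_le_mul_of_nonneg_right ?_ ha0
        rw [mul_pow]
        refine mul_le_mul_of_nonneg_right ?_ (sq_nonneg _)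
        nlinarith))
    _ = M * ε * Real.sqrt (∑ j, A k0 j ^ 2) := by
        rw [Real.sqrt_mul (sq_nonneg _), Real.sqrt_sq (mul_nonneg (by linarith) hε)]

end Pool.Agent.BalanWangRC
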