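import Pool.Agent.MP_686ee2_an.RC.Disp

/-!
Two polynomials of degree at most `m` whose weighted values have an exponentially small product.
-/

set_option autoImplicit false

namespace Pool.Agent.BalanWangRC

open Finset Polynomial

/-- **Median lemma.** -/
lemma median {ι : Type*} [DecidableEq ι] (K : Finset ι) (m : ℕ) (hm : 1 ≤ m)
    (hK : K.card = 2 * m - 1) (x : ι → ℝ) (Λ : ℝ)
    (h : ∀ X ⊆ K, ∀ Y ⊆ K, X.card = m → Y.card = m → ∑ k ∈ X, x k - ∑ k ∈ Y, x k ≤ Λ) :
    ∃ c, ∑ k ∈ K, |x k - c| ≤ Λ := by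
  have hne : (powersetCard m K).Nonempty := by
    rw [powersetCard_nonempty]; omega
  obtain ⟨X, hX, hmax⟩ := exists_max_image (powersetCard m K) (fun X => ∑ k ∈ X, x k) hne
  rw [mem_powersetCard] at hX
  obtain ⟨hXK, hXc⟩ := hX
  have hswap : ∀ k ∈ X, ∀ l ∈ K \ X, x l ≤ x k := by
    intro k hk l hl
    rw [mem_sdiff] at hl
    have hl' : l ∉ X.erase k := fun h' => hl.2 (mem_of_mem_erase h')
    have hY : insert l (X.erase k) ∈ powersetCard m K := by
      rw [mem_powersetCard]
      constructor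
      · intro y hy
        rw [mem_insert] at hy
        rcases hy with rfl | hy
        · exact hl.1
        · exact hXK (mem_of_mem_erase hy)
      · rw [card_insert_of_notMem hl', card_erase_of_mem hk]; omega
    have h1 : ∑ k ∈ insert l (X.erase k), x k ≤ ∑ k ∈ X, x k := hmax _ hY
    rw [sum_insert hl', ← add_sum_erase X x hk] at h1
    linarith
  have hXne : X.Nonempty := by rw [← card_pos]; omega
  obtain ⟨k0, hk0, hmin⟩ := exists_min_image X x hXne
  refine ⟨x k0, ?_⟩
  have hk0' : k0 ∉ K \ X := fun h' => (mem_sdiff.1 h').2 hk0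
  have hYK : insert k0 (K \ X) ⊆ K := by
    intro y hy
    rw [mem_insert] at hy
    rcases hy with rfl | hy
    · exact hXK hk0
    · exact (mem_sdiff.1 hy).1
  have hYc : (insert k0 (K \ X)).card = m := by
    rw [card_insert_of_notMem hk0', card_sdiff_of_subset hXK]; omega
  have h1 := h X hXK _ hYK hXc hYc
  rw [sum_insert hk0'] at h1
  have h2 : ∑ k ∈ K, |x k - x k0| = ∑ k ∈ X, |x k - x k0| + ∑ k ∈ K \ X, |x k - x k0| := by
    rw [add_comm, sum_sdiff hXK]
  have h3 : ∑ k ∈ X, |x k - x k0| = ∑ k ∈ X, x k - m * x k0 := by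
    rw [sum_congr rfl fun k hk => abs_of_nonneg (sub_nonneg.2 (hmin k hk)), sum_sub_distrib,
      sum_const, hXc, nsmul_eq_mul]
  have h4 : ∑ k ∈ K \ X, |x k - x k0| = (m - 1) * x k0 - ∑ k ∈ K \ X, x k := by
    rw [sum_congr rfl fun k hk => abs_of_nonpos (sub_nonpos.2 (hswap k0 hk0 k hk)),
      sum_congr rfl fun k _ => neg_sub (x k) (x k0), sum_sub_distrib, sum_const,
      card_sdiff_of_subset hXK, hXc, hK, nsmul_eq_mul]
    have : ((2 * m - 1 - m : ℕ) : ℝ) = (m : ℝ) - 1 := by
      rw [show 2 * m - 1 - m = m - 1 by omega, Nat.cast_sub hm]; norm_num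
    rw [this]
  rw [h2, h3, h4]
  linarith

lemma sum_log_eq {n : ℕ} {t : Fin n → ℂ} (ht : Function.Injective t) (X : Finset (Fin n))
    (a : Fin n) (ha : a ∉ X) :
    Real.log (∏ b ∈ X, ‖t a - t b‖) = ∑ b ∈ X, Real.log ‖t a - t b‖ := by
  rw [Real.log_prod]
  intro b hb
  exact norm_ne_zero_iff.2 (sub_ne_zero.2 fun e => ha (by rw [ht e]; exact hb))

/-- **Key estimate.** Among `2m+1` distinct points with nonzero weights there are two points `a, i` and
`m` further points `X` such that the weighted product of the distances to `X` is exponentially smaller at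
`a` than at `i`. -/
lemma exists_small {n m : ℕ} (hn : n = 2 * m + 1) (hm : 1 ≤ m) (t : Fin n → ℂ)
    (ht : Function.Injective t) (w : Fin n → ℂ) (hw : ∀ i, w i ≠ 0) :
    ∃ a i : Fin n, a ≠ i ∧ ∃ X : Finset (Fin n), X.card = m ∧ a ∉ X ∧ i ∉ X ∧
      ‖w a‖ * ∏ b ∈ X, ‖t a - t b‖
        ≤ (1 / 2 : ℝ) ^ (((m : ℝ) - 1) / 12) * (‖w i‖ * ∏ b ∈ X, ‖t i - t b‖) := by
  by_contra hcon
  push Not at hcon
  set g : ℝ := (1 / 2 : ℝ) ^ (((m : ℝ) - 1) / 12) with hg
  have hgpos : 0 < g := Real.rpow_pos_of_pos (by norm_num) _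
  have hlogg : Real.log g = -(((m : ℝ) - 1) / 12 * Real.log 2) := by
    rw [hg, Real.log_rpow (by norm_num), one_div, Real.log_inv]
    ring
  have main : ∀ a i : Fin n, a ≠ i → ∀ X Y : Finset (Fin n), X.card = m → Y.card = m →
      a ∉ X → i ∉ X → a ∉ Y → i ∉ Y →
      ∑ b ∈ X, (Real.log ‖t i - t b‖ - Real.log ‖t a - t b‖)
        - ∑ b ∈ Y, (Real.log ‖t i - t b‖ - Real.log ‖t a - t b‖) < -2 * Real.log g := by
    intro a i hai X Y hX hY haX hiX haY hiY
    have h1 := hcon a i hai X hX haX hiX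
    have h2 := hcon i a hai.symm Y hY hiY haY
    have pos : ∀ (c : Fin n) (Z : Finset (Fin n)), c ∉ Z → 0 < ∏ b ∈ Z, ‖t c - t b‖ := by
      intro c Z hc
      refine prod_pos fun b hb => norm_pos_iff.2 (sub_ne_zero.2 fun e => hc (by rw [ht e]; exact hb))
    have wa : 0 < ‖w a‖ := norm_pos_iff.2 (hw a)
    have wi : 0 < ‖w i‖ := norm_pos_iff.2 (hw i)
    have l1 := Real.log_lt_log (mul_pos hgpos (mul_pos wi (pos i X hiX))) h1
    have l2 := Real.log_lt_log (mul_pos hgpos (mul_pos wa (pos a Y haY))) h2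
    rw [Real.log_mul hgpos.ne' (mul_pos wi (pos i X hiX)).ne', Real.log_mul wi.ne' (pos i X hiX).ne',
      Real.log_mul wa.ne' (pos a X haX).ne', sum_log_eq ht X i hiX, sum_log_eq ht X a haX] at l1
    rw [Real.log_mul hgpos.ne' (mul_pos wa (pos a Y haY)).ne', Real.log_mul wa.ne' (pos a Y haY).ne',
      Real.log_mul wi.ne' (pos i Y hiY).ne', sum_log_eq ht Y i hiY, sum_log_eq ht Y a haY] at l2
    rw [sum_sub_distrib, sum_sub_distrib]
    linarith
  rcases Nat.lt_or_ge m 2 with hm2 | hm2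
  · have hm1 : m = 1 := by omega
    subst hm1
    have hn3 : n = 3 := by omega
    subst hn3
    have h := main 0 1 (by decide) {2} {2} (by decide) (by decide) (by decide) (by decide)
      (by decide) (by decide)
    rw [hlogg] at h
    norm_num at h
  · have hd := dispersion (n := n) (by omega) t ht (-2 * Real.log g) (by
      intro a i hai
      refine median (univ.filter (fun k => k ≠ a ∧ k ≠ i)) m hm ?_ _ _ ?_
      · have : univ.filter (fun k : Fin n => k ≠ a ∧ k ≠ i) = (univ.erase a).erase i := by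
          ext k; simp [and_comm]
        rw [this, Finset.card_erase_of_mem (by simp [hai.symm]),
          Finset.card_erase_of_mem (mem_univ _), Finset.card_univ, Fintype.card_fin]
        omega
      · intro X hX Y hY hXc hYc
        have f : ∀ Z ⊆ univ.filter (fun k : Fin n => k ≠ a ∧ k ≠ i), a ∉ Z ∧ i ∉ Z := by
          intro Z hZ
          constructor
          · intro h; have := hZ h; simp at this
          · intro h; have := hZ h; simp at this
        exact (main a i hai X Y hXc hYc (f X hX).1 (f X hX).2 (f Y hY).1 (f Y hY).2).le)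
    rw [hlogg, hn] at hd
    push_cast at hd
    have hlog2 : 0 < Real.log 2 := Real.log_pos (by norm_num)
    nlinarith

section Vandermonde

variable {ι : Type*} [DecidableEq ι]

/-- The weighted Vandermonde determinant squared. -/
noncomputable def V2 (w t : ι → ℂ) (S : Finset ι) : ℝ :=
  ∏ j ∈ S, (‖w j‖ ^ 4 * ∏ k ∈ S.erase j, ‖t j - t k‖)

/-- The factor of a new point. -/
noncomputable def E (w t : ι → ℂ) (x : ι) (S : Finset ι) : ℝ :=
  ‖w x‖ ^ 2 * ∏ b ∈ S, ‖t x - t b‖

lemma V2_insert (w t : ι → ℂ) {x : ι} {S : Finset ι} (hx : x ∉ S) :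
    V2 w t (insert x S) = V2 w t S * E w t x S ^ 2 := by
  unfold V2 E
  rw [prod_insert hx, erase_insert hx]
  have h1 : ∏ j ∈ S, (‖w j‖ ^ 4 * ∏ k ∈ (insert x S).erase j, ‖t j - t k‖)
      = ∏ j ∈ S, ((‖w j‖ ^ 4 * ∏ k ∈ S.erase j, ‖t j - t k‖) * ‖t x - t j‖) := by
    refine prod_congr rfl fun j hj => ?_
    have hxj : x ≠ j := fun e => hx (e ▸ hj)
    rw [erase_insert_of_ne hxj, prod_insert (fun h => hx (mem_of_mem_erase h)), norm_sub_rev (t j)]
    ring
  rw [h1, prod_mul_distrib]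
  ring

lemma V2_nonneg (w t : ι → ℂ) (S : Finset ι) : 0 ≤ V2 w t S :=
  prod_nonneg fun _ _ => mul_nonneg (by positivity) (prod_nonneg fun _ _ => norm_nonneg _)

lemma E_nonneg (w t : ι → ℂ) (x : ι) (S : Finset ι) : 0 ≤ E w t x S :=
  mul_nonneg (by positivity) (prod_nonneg fun _ _ => norm_nonneg _)

lemma V2_pos {w t : ι → ℂ} {S : Finset ι} (hw : ∀ j ∈ S, w j ≠ 0)
    (ht : Set.InjOn t (S : Set ι)) : 0 < V2 w t S := by
  refine prod_pos fun j hj => mul_pos (pow_pos (norm_pos_iff.2 (hw j hj)) 4) (prod_pos fun k hk => ?_)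
  rw [mem_erase] at hk
  exact norm_pos_iff.2 (sub_ne_zero.2 fun e => hk.1 (ht (by exact_mod_cast hk.2)
    (by exact_mod_cast hj) e.symm))

lemma injOn_of_V2_pos {w t : ι → ℂ} {S : Finset ι} (h : 0 < V2 w t S) :
    Set.InjOn t (S : Set ι) := by
  intro a ha b hb hab
  by_contra hne
  refine h.ne' ?_
  unfold V2
  refine prod_eq_zero (i := a) (by exact_mod_cast ha) ?_
  rw [prod_eq_zero (i := b) (mem_erase.2 ⟨fun e => hne e.symm, by exact_mod_cast hb⟩)
    (by rw [hab]; simp)]
  ring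

/-- A set of maximal weighted Vandermonde determinant. -/
lemma exists_max (w t : ι → ℂ) (J : Finset ι) (hw : ∀ j ∈ J, w j ≠ 0) (n : ℕ)
    (hn : n ≤ (J.image t).card) :
    ∃ T ⊆ J, T.card = n ∧ Set.InjOn t (T : Set ι) ∧
      ∀ a ∈ T, ∀ k ∈ J, E w t k (T.erase a) ≤ E w t a (T.erase a) := by
  obtain ⟨U, hU, hUc⟩ := exists_subset_card_eq hn
  obtain ⟨T0, hT0, hinj0, himg⟩ : ∃ T0 ⊆ J, Set.InjOn t (T0 : Set ι) ∧ T0.image t = U := by
    obtain ⟨T0, hT0, himg, hinj⟩ := Set.SurjOn.exists_subset_injOn_image_eq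
      (f := t) (s := (J : Set ι)) (t := (U : Set ℂ)) (by
        intro y hy
        have := hU (by exact_mod_cast hy)
        rw [mem_image] at this
        obtain ⟨x, hx, rfl⟩ := this
        exact ⟨x, by exact_mod_cast hx, rfl⟩)
    have hfin : T0.Finite := J.finite_toSet.subset hT0
    refine ⟨hfin.toFinset, ?_, ?_, ?_⟩
    · intro x hx
      rw [Set.Finite.mem_toFinset] at hx
      exact_mod_cast hT0 hx
    · simpa using himg
    · ext y
      simp only [mem_image, Set.Finite.mem_toFinset]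
      have : y ∈ t '' T0 ↔ y ∈ (U : Set ℂ) := by rw [hinj]
      simpa [Set.mem_image] using this
  have hT0c : T0.card = n := by rw [← hUc, ← himg, card_image_of_injOn hinj0]
  obtain ⟨T, hT, hmax⟩ := exists_max_image (powersetCard n J) (V2 w t)
    ⟨T0, mem_powersetCard.2 ⟨hT0, hT0c⟩⟩
  rw [mem_powersetCard] at hT
  obtain ⟨hTJ, hTc⟩ := hT
  have hpos : 0 < V2 w t T :=
    lt_of_lt_of_le (V2_pos (fun j hj => hw j (hT0 hj)) hinj0) (hmax T0
      (mem_powersetCard.2 ⟨hT0, hT0c⟩))
  refine ⟨T, hTJ, hTc, injOn_of_V2_pos hpos, fun a ha k hk => ?_⟩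
  by_cases hka : k ∈ T.erase a
  · have : E w t k (T.erase a) = 0 := by
      unfold E
      rw [prod_eq_zero hka (by simp)]; ring
    rw [this]
    exact E_nonneg _ _ _ _
  · have h1 : V2 w t T = V2 w t (T.erase a) * E w t a (T.erase a) ^ 2 := by
      conv_lhs => rw [← insert_erase ha]
      exact V2_insert w t (notMem_erase a T)
    have h2 : insert k (T.erase a) ∈ powersetCard n J := by
      rw [mem_powersetCard]
      constructor
      · intro y hy
        rw [mem_insert] at hy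
        rcases hy with rfl | hy
        · exact hk
        · exact hTJ (mem_of_mem_erase hy)
      · rw [card_insert_of_notMem hka, card_erase_of_mem ha]
        have : 0 < T.card := card_pos.2 ⟨a, ha⟩
        omega
    have h3 := hmax _ h2
    rw [V2_insert w t hka, h1] at h3
    have h4 : 0 < V2 w t (T.erase a) := by
      rcases lt_or_eq_of_le (V2_nonneg w t (T.erase a)) with h | h
      · exact h
      · rw [h1, ← h] at hpos; simp at hpos
    have h5 := le_of_mul_le_mul_left h3 h4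
    exact le_of_sq_le_sq h5 (E_nonneg _ _ _ _)

end Vandermonde

end Pool.Agent.BalanWangRC
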