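import Mathlib

/-!
Four distinct points of the plane: two of the six distances have ratio at least the square root of two;
logarithmic form over the twelve pairs of adjacent edges.
-/

set_option autoImplicit false
set_option maxHeartbeats 1000000
set_option linter.unusedSimpArgs false

namespace Pool.Agent.BalanWangRC

lemma two_two {a b c d μ D1 D2 D3 D4 D5 D6 : ℝ} (ha : 0 ≤ a) (hb : 0 ≤ b) (hc : 0 ≤ c)
    (hd : 0 ≤ d) (h : a + b = c + d) (hpos : 0 < a + b) (hμ : 0 < μ)
    (l3 : μ ≤ D3) (l4 : μ ≤ D4) (l5 : μ ≤ D5) (l6 : μ ≤ D6)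
    (u1 : D1 < 2 * μ) (u2 : D2 < 2 * μ) :
    a * b * D1 + c * d * D2 < a * c * D3 + a * d * D4 + b * c * D5 + b * d * D6 := by
  have hab := mul_nonneg ha hb
  have hcd := mul_nonneg hc hd
  have h3 := mul_le_mul_of_nonneg_left l3 (mul_nonneg ha hc)
  have h4 := mul_le_mul_of_nonneg_left l4 (mul_nonneg ha hd)
  have h5 := mul_le_mul_of_nonneg_left l5 (mul_nonneg hb hc)
  have h6 := mul_le_mul_of_nonneg_left l6 (mul_nonneg hb hd)
  have hR : μ * (a + b) ^ 2 ≤ a * c * D3 + a * d * D4 + b * c * D5 + b * d * D6 := by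
    have e : μ * (a + b) ^ 2 = a * c * μ + a * d * μ + b * c * μ + b * d * μ := by
      have : (a + b) ^ 2 = (a + b) * (c + d) := by rw [← h]; ring
      rw [this]; ring
    rw [e]; linarith
  have h1 := mul_le_mul_of_nonneg_left u1.le hab
  have h2 := mul_le_mul_of_nonneg_left u2.le hcd
  have hq : 2 * μ * (a * b + c * d) ≤ μ * (a + b) ^ 2 := by
    have e1 : 4 * (a * b) ≤ (a + b) ^ 2 := by nlinarith [sq_nonneg (a - b)]
    have e2 : 4 * (c * d) ≤ (a + b) ^ 2 := by rw [h]; nlinarith [sq_nonneg (c - d)]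
    nlinarith
  rcases lt_or_eq_of_le (add_nonneg hab hcd) with hlt | heq
  · rcases lt_or_eq_of_le hab with h7 | h7
    · have := mul_lt_mul_of_pos_left u1 h7
      linarith
    · have h8 : 0 < c * d := by linarith
      have := mul_lt_mul_of_pos_left u2 h8
      linarith
  · have e1 : a * b = 0 := by linarith
    have e2 : c * d = 0 := by linarith
    have : 0 < μ * (a + b) ^ 2 := by positivity
    rw [e1, e2]
    linarith

lemma one_three {a b c d μ D1 D2 D3 D4 D5 D6 : ℝ} (hb : 0 ≤ b) (hc : 0 ≤ c)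
    (hd : 0 ≤ d) (h : a = b + c + d) (hpos : 0 < a) (hμ : 0 < μ)
    (l1 : μ ≤ D1) (l2 : μ ≤ D2) (l3 : μ ≤ D3)
    (u4 : D4 < 2 * μ) (u5 : D5 < 2 * μ) (u6 : D6 < 2 * μ) :
    b * c * D4 + b * d * D5 + c * d * D6 < a * b * D1 + a * c * D2 + a * d * D3 := by
  have h1 := mul_le_mul_of_nonneg_left l1 (mul_nonneg hpos.le hb)
  have h2 := mul_le_mul_of_nonneg_left l2 (mul_nonneg hpos.le hc)
  have h3 := mul_le_mul_of_nonneg_left l3 (mul_nonneg hpos.le hd)
  have h4 := mul_le_mul_of_nonneg_left u4.le (mul_nonneg hb hc)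
  have h5 := mul_le_mul_of_nonneg_left u5.le (mul_nonneg hb hd)
  have h6 := mul_le_mul_of_nonneg_left u6.le (mul_nonneg hc hd)
  have hR : μ * a ^ 2 ≤ a * b * D1 + a * c * D2 + a * d * D3 := by
    have e : μ * a ^ 2 = a * b * μ + a * c * μ + a * d * μ := by
      have : a ^ 2 = a * (b + c + d) := by rw [← h]; ring
      rw [this]; ring
    rw [e]; linarith
  have hq : 3 * (b * c + b * d + c * d) ≤ a ^ 2 := by
    rw [h]; nlinarith [sq_nonneg (b - c), sq_nonneg (b - d), sq_nonneg (c - d)]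
  have h7 : 0 < μ * a ^ 2 := by positivity
  nlinarith

/-- The quadratic form of the six squared distances has no zero with zero sum. -/
lemma form_ne {l0 l1 l2 l3 μ D01 D02 D03 D12 D13 D23 : ℝ} (hs : l0 + l1 + l2 + l3 = 0)
    (hne : l0 ≠ 0 ∨ l1 ≠ 0 ∨ l2 ≠ 0 ∨ l3 ≠ 0) (hμ : 0 < μ)
    (a1 : μ ≤ D01) (a2 : μ ≤ D02) (a3 : μ ≤ D03) (a4 : μ ≤ D12) (a5 : μ ≤ D13) (a6 : μ ≤ D23)
    (b1 : D01 < 2 * μ) (b2 : D02 < 2 * μ) (b3 : D03 < 2 * μ) (b4 : D12 < 2 * μ)
    (b5 : D13 < 2 * μ) (b6 : D23 < 2 * μ) :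
    l0 * l1 * D01 + l0 * l2 * D02 + l0 * l3 * D03 + l1 * l2 * D12 + l1 * l3 * D13
      + l2 * l3 * D23 ≠ 0 := by
  intro h0
  rcases le_total 0 l0 with s0 | s0 <;> rcases le_total 0 l1 with s1 | s1 <;>
    rcases le_total 0 l2 with s2 | s2 <;> rcases le_total 0 l3 with s3 | s3
  · exact hne.elim (fun h => h (by linarith)) (fun h => h.elim (fun h => h (by linarith))
        (fun h => h.elim (fun h => h (by linarith)) (fun h => h (by linarith))))
  · -- l3 ≤ 0
    by_cases hp : 0 < -l3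
    · have := one_three (a := -l3) (b := l0) (c := l1) (d := l2) (D1 := D03) (D2 := D13)
        (D3 := D23) (D4 := D01) (D5 := D02) (D6 := D12) s0 s1 s2 (by linarith) hp hμ a3 a5 a6 b1 b2 b4
      linarith
    · exact hne.elim (fun h => h (by linarith)) (fun h => h.elim (fun h => h (by linarith))
        (fun h => h.elim (fun h => h (by linarith)) (fun h => h (by linarith))))
  · by_cases hp : 0 < -l2
    · have := one_three (a := -l2) (b := l0) (c := l1) (d := l3) (D1 := D02) (D2 := D12)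
        (D3 := D23) (D4 := D01) (D5 := D03) (D6 := D13) s0 s1 s3 (by linarith) hp hμ a2 a4 a6 b1 b3 b5
      linarith
    · exact hne.elim (fun h => h (by linarith)) (fun h => h.elim (fun h => h (by linarith))
        (fun h => h.elim (fun h => h (by linarith)) (fun h => h (by linarith))))
  · by_cases hp : 0 < l0 + l1
    · have := two_two (a := l0) (b := l1) (c := -l2) (d := -l3) (D1 := D01) (D2 := D23)
        (D3 := D02) (D4 := D03) (D5 := D12) (D6 := D13) s0 s1 (by linarith) (by linarith)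
        (by linarith) hp hμ a2 a3 a4 a5 b1 b6
      linarith
    · exact hne.elim (fun h => h (by linarith)) (fun h => h.elim (fun h => h (by linarith))
        (fun h => h.elim (fun h => h (by linarith)) (fun h => h (by linarith))))
  · by_cases hp : 0 < -l1
    · have := one_three (a := -l1) (b := l0) (c := l2) (d := l3) (D1 := D01) (D2 := D12)
        (D3 := D13) (D4 := D02) (D5 := D03) (D6 := D23) s0 s2 s3 (by linarith) hp hμ a1 a4 a5 b2 b3 b6
      linarith
    · exact hne.elim (fun h => h (by linarith)) (fun h => h.elim (fun h => h (by linarith))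
        (fun h => h.elim (fun h => h (by linarith)) (fun h => h (by linarith))))
  · by_cases hp : 0 < l0 + l2
    · have := two_two (a := l0) (b := l2) (c := -l1) (d := -l3) (D1 := D02) (D2 := D13)
        (D3 := D01) (D4 := D03) (D5 := D12) (D6 := D23) s0 s2 (by linarith) (by linarith)
        (by linarith) hp hμ a1 a3 a4 a6 b2 b5
      linarith
    · exact hne.elim (fun h => h (by linarith)) (fun h => h.elim (fun h => h (by linarith))
        (fun h => h.elim (fun h => h (by linarith)) (fun h => h (by linarith))))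
  · by_cases hp : 0 < l0 + l3
    · have := two_two (a := l0) (b := l3) (c := -l1) (d := -l2) (D1 := D03) (D2 := D12)
        (D3 := D01) (D4 := D02) (D5 := D13) (D6 := D23) s0 s3 (by linarith) (by linarith)
        (by linarith) hp hμ a1 a2 a5 a6 b3 b4
      linarith
    · exact hne.elim (fun h => h (by linarith)) (fun h => h.elim (fun h => h (by linarith))
        (fun h => h.elim (fun h => h (by linarith)) (fun h => h (by linarith))))
  · by_cases hp : 0 < l0
    · have := one_three (a := l0) (b := -l1) (c := -l2) (d := -l3) (D1 := D01) (D2 := D02)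
        (D3 := D03) (D4 := D12) (D5 := D13) (D6 := D23) (by linarith) (by linarith) (by linarith)
        (by linarith) hp hμ a1 a2 a3 b4 b5 b6
      linarith
    · exact hne.elim (fun h => h (by linarith)) (fun h => h.elim (fun h => h (by linarith))
        (fun h => h.elim (fun h => h (by linarith)) (fun h => h (by linarith))))
  · by_cases hp : 0 < -l0
    · have := one_three (a := -l0) (b := l1) (c := l2) (d := l3) (D1 := D01) (D2 := D02)
        (D3 := D03) (D4 := D12) (D5 := D13) (D6 := D23) s1 s2 s3 (by linarith) hp hμ a1 a2 a3 b4 b5 b6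
      linarith
    · exact hne.elim (fun h => h (by linarith)) (fun h => h.elim (fun h => h (by linarith))
        (fun h => h.elim (fun h => h (by linarith)) (fun h => h (by linarith))))
  · by_cases hp : 0 < l1 + l2
    · have := two_two (a := l1) (b := l2) (c := -l0) (d := -l3) (D1 := D12) (D2 := D03)
        (D3 := D01) (D4 := D13) (D5 := D02) (D6 := D23) s1 s2 (by linarith) (by linarith)
        (by linarith) hp hμ a1 a5 a2 a6 b4 b3
      linarith
    · exact hne.elim (fun h => h (by linarith)) (fun h => h.elim (fun h => h (by linarith))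
        (fun h => h.elim (fun h => h (by linarith)) (fun h => h (by linarith))))
  · by_cases hp : 0 < l1 + l3
    · have := two_two (a := l1) (b := l3) (c := -l0) (d := -l2) (D1 := D13) (D2 := D02)
        (D3 := D01) (D4 := D12) (D5 := D03) (D6 := D23) s1 s3 (by linarith) (by linarith)
        (by linarith) hp hμ a1 a4 a3 a6 b5 b2
      linarith
    · exact hne.elim (fun h => h (by linarith)) (fun h => h.elim (fun h => h (by linarith))
        (fun h => h.elim (fun h => h (by linarith)) (fun h => h (by linarith))))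
  · by_cases hp : 0 < l1
    · have := one_three (a := l1) (b := -l0) (c := -l2) (d := -l3) (D1 := D01) (D2 := D12)
        (D3 := D13) (D4 := D02) (D5 := D03) (D6 := D23) (by linarith) (by linarith) (by linarith)
        (by linarith) hp hμ a1 a4 a5 b2 b3 b6
      linarith
    · exact hne.elim (fun h => h (by linarith)) (fun h => h.elim (fun h => h (by linarith))
        (fun h => h.elim (fun h => h (by linarith)) (fun h => h (by linarith))))
  · by_cases hp : 0 < l2 + l3
    · have := two_two (a := l2) (b := l3) (c := -l0) (d := -l1) (D1 := D23) (D2 := D01)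
        (D3 := D02) (D4 := D12) (D5 := D03) (D6 := D13) s2 s3 (by linarith) (by linarith)
        (by linarith) hp hμ a2 a4 a3 a5 b6 b1
      linarith
    · exact hne.elim (fun h => h (by linarith)) (fun h => h.elim (fun h => h (by linarith))
        (fun h => h.elim (fun h => h (by linarith)) (fun h => h (by linarith))))
  · by_cases hp : 0 < l2
    · have := one_three (a := l2) (b := -l0) (c := -l1) (d := -l3) (D1 := D02) (D2 := D12)
        (D3 := D23) (D4 := D01) (D5 := D03) (D6 := D13) (by linarith) (by linarith) (by linarith)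
        (by linarith) hp hμ a2 a4 a6 b1 b3 b5
      linarith
    · exact hne.elim (fun h => h (by linarith)) (fun h => h.elim (fun h => h (by linarith))
        (fun h => h.elim (fun h => h (by linarith)) (fun h => h (by linarith))))
  · by_cases hp : 0 < l3
    · have := one_three (a := l3) (b := -l0) (c := -l1) (d := -l2) (D1 := D03) (D2 := D13)
        (D3 := D23) (D4 := D01) (D5 := D02) (D6 := D12) (by linarith) (by linarith) (by linarith)
        (by linarith) hp hμ a3 a5 a6 b1 b2 b4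
      linarith
    · exact hne.elim (fun h => h (by linarith)) (fun h => h.elim (fun h => h (by linarith))
        (fun h => h.elim (fun h => h (by linarith)) (fun h => h (by linarith))))
  · exact hne.elim (fun h => h (by linarith)) (fun h => h.elim (fun h => h (by linarith))
        (fun h => h.elim (fun h => h (by linarith)) (fun h => h (by linarith))))

lemma heron_pos {a b c μ : ℝ} (hμ : 0 < μ) (ha : μ ≤ a) (hb : μ ≤ b) (hc : μ ≤ c)
    (ha' : a < 2 * μ) (hb' : b < 2 * μ) (hc' : c < 2 * μ) :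
    0 < 2 * (a * b + b * c + c * a) - (a ^ 2 + b ^ 2 + c ^ 2) := by
  have q1 : a * a < a * (2 * b) := mul_lt_mul_of_pos_left (by linarith) (by linarith)
  have q2 : b * b < b * (2 * c) := mul_lt_mul_of_pos_left (by linarith) (by linarith)
  have q3 : c * c < c * (2 * a) := mul_lt_mul_of_pos_left (by linarith) (by linarith)
  linarith

/-- Four points of the plane cannot have all their squared distances in `[μ, 2μ)`. -/
lemma plane_real {u1 u2 v1 v2 w1 w2 μ : ℝ} (hμ : 0 < μ)
    (a1 : μ ≤ u1 ^ 2 + u2 ^ 2) (a2 : μ ≤ v1 ^ 2 + v2 ^ 2) (a3 : μ ≤ w1 ^ 2 + w2 ^ 2)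
    (a4 : μ ≤ (u1 - v1) ^ 2 + (u2 - v2) ^ 2) (a5 : μ ≤ (u1 - w1) ^ 2 + (u2 - w2) ^ 2)
    (a6 : μ ≤ (v1 - w1) ^ 2 + (v2 - w2) ^ 2)
    (b1 : u1 ^ 2 + u2 ^ 2 < 2 * μ) (b2 : v1 ^ 2 + v2 ^ 2 < 2 * μ) (b3 : w1 ^ 2 + w2 ^ 2 < 2 * μ)
    (b4 : (u1 - v1) ^ 2 + (u2 - v2) ^ 2 < 2 * μ) (b5 : (u1 - w1) ^ 2 + (u2 - w2) ^ 2 < 2 * μ)
    (b6 : (v1 - w1) ^ 2 + (v2 - w2) ^ 2 < 2 * μ) : False := by
  set α := v1 * w2 - v2 * w1 with hα
  set β := w1 * u2 - w2 * u1 with hβ
  set γ := u1 * v2 - u2 * v1 with hγ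
  by_cases hne : (-(α + β + γ)) ≠ 0 ∨ α ≠ 0 ∨ β ≠ 0 ∨ γ ≠ 0
  · refine form_ne (l0 := -(α + β + γ)) (l1 := α) (l2 := β) (l3 := γ) (by ring) hne hμ a1 a2 a3 a4
      a5 a6 b1 b2 b3 b4 b5 b6 ?_
    rw [hα, hβ, hγ]
    ring
  · push Not at hne
    obtain ⟨-, -, -, h3⟩ := hne
    -- collinear: the three squared side lengths satisfy Heron with zero area
    set a := u1 ^ 2 + u2 ^ 2 with ha
    set b := v1 ^ 2 + v2 ^ 2 with hb
    set c := (u1 - v1) ^ 2 + (u2 - v2) ^ 2 with hc
    have hH : 2 * (a * b + b * c + c * a) - (a ^ 2 + b ^ 2 + c ^ 2) = 0 := by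
      have : 2 * (a * b + b * c + c * a) - (a ^ 2 + b ^ 2 + c ^ 2) = 4 * γ ^ 2 := by
        rw [ha, hb, hc, hγ]; ring
      rw [this, h3]; ring
    have := heron_pos hμ a1 a2 a4 b1 b2 b4
    linarith

/-- Two of the six distances between four distinct points differ by a factor at least `√2`:
logarithmic form. -/
lemma plane_six {p0 p1 p2 p3 : ℂ} (h01 : p0 ≠ p1) (h02 : p0 ≠ p2) (h03 : p0 ≠ p3)
    (h12 : p1 ≠ p2) (h13 : p1 ≠ p3) (h23 : p2 ≠ p3) {Δ : ℝ} (hΔ : Δ < Real.log 2 / 2)
    (m : ℝ)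
    (a1 : m ≤ Real.log ‖p0 - p1‖) (a2 : m ≤ Real.log ‖p0 - p2‖) (a3 : m ≤ Real.log ‖p0 - p3‖)
    (a4 : m ≤ Real.log ‖p1 - p2‖) (a5 : m ≤ Real.log ‖p1 - p3‖) (a6 : m ≤ Real.log ‖p2 - p3‖)
    (b1 : Real.log ‖p0 - p1‖ ≤ m + Δ) (b2 : Real.log ‖p0 - p2‖ ≤ m + Δ)
    (b3 : Real.log ‖p0 - p3‖ ≤ m + Δ) (b4 : Real.log ‖p1 - p2‖ ≤ m + Δ)
    (b5 : Real.log ‖p1 - p3‖ ≤ m + Δ) (b6 : Real.log ‖p2 - p3‖ ≤ m + Δ) : False := by
  have lo : ∀ p q : ℂ, p ≠ q → m ≤ Real.log ‖p - q‖ →
      Real.exp m ^ 2 ≤ (p.re - q.re) ^ 2 + (p.im - q.im) ^ 2 := by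
    intro p q hpq h
    have h0 : 0 < ‖p - q‖ := norm_pos_iff.2 (sub_ne_zero.2 hpq)
    have h1 : Real.exp m ≤ ‖p - q‖ := by rwa [← Real.le_log_iff_exp_le h0]
    have h2 : ‖p - q‖ ^ 2 = (p.re - q.re) ^ 2 + (p.im - q.im) ^ 2 := by
      rw [← Complex.normSq_eq_norm_sq, Complex.normSq_apply]
      simp only [Complex.sub_re, Complex.sub_im]; ring
    rw [← h2]
    exact pow_le_pow_left₀ (Real.exp_pos m).le h1 2
  have hi : ∀ p q : ℂ, p ≠ q → Real.log ‖p - q‖ ≤ m + Δ →
      (p.re - q.re) ^ 2 + (p.im - q.im) ^ 2 < 2 * Real.exp m ^ 2 := by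
    intro p q hpq h
    have h0 : 0 < ‖p - q‖ := norm_pos_iff.2 (sub_ne_zero.2 hpq)
    have h1 : ‖p - q‖ ≤ Real.exp (m + Δ) := by rwa [← Real.log_le_iff_le_exp h0]
    have h2 : ‖p - q‖ ^ 2 = (p.re - q.re) ^ 2 + (p.im - q.im) ^ 2 := by
      rw [← Complex.normSq_eq_norm_sq, Complex.normSq_apply]
      simp only [Complex.sub_re, Complex.sub_im]; ring
    rw [← h2]
    have h3 : ‖p - q‖ ^ 2 ≤ Real.exp (m + Δ) ^ 2 := pow_le_pow_left₀ h0.le h1 2
    have h4 : Real.exp (m + Δ) ^ 2 < 2 * Real.exp m ^ 2 := by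
      rw [Real.exp_add, mul_pow, mul_comm]
      have : Real.exp Δ ^ 2 < 2 := by
        rw [← Real.exp_nat_mul]
        have : Real.exp (((2 : ℕ) : ℝ) * Δ) < Real.exp (Real.log 2) := by
          apply Real.exp_lt_exp.2
          push_cast
          linarith
        rwa [Real.exp_log (by norm_num)] at this
      have h5 : 0 < Real.exp m ^ 2 := by positivity
      exact mul_lt_mul_of_pos_right this h5
    linarith
  have g : ∀ p q r : ℂ, (p.re - q.re) ^ 2 + (p.im - q.im) ^ 2
      = ((p.re - r.re) - (q.re - r.re)) ^ 2 + ((p.im - r.im) - (q.im - r.im)) ^ 2 := by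
    intro p q r; ring
  refine plane_real (u1 := p1.re - p0.re) (u2 := p1.im - p0.im) (v1 := p2.re - p0.re)
    (v2 := p2.im - p0.im) (w1 := p3.re - p0.re) (w2 := p3.im - p0.im)
    (μ := Real.exp m ^ 2) (by positivity) ?_ ?_ ?_ ?_ ?_ ?_ ?_ ?_ ?_ ?_ ?_ ?_
  · have := lo p1 p0 h01.symm (by rwa [norm_sub_rev]); exact this
  · have := lo p2 p0 h02.symm (by rwa [norm_sub_rev]); exact this
  · have := lo p3 p0 h03.symm (by rwa [norm_sub_rev]); exact this
  · rw [← g]; exact lo p1 p2 h12 a4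
  · rw [← g]; exact lo p1 p3 h13 a5
  · rw [← g]; exact lo p2 p3 h23 a6
  · have := hi p1 p0 h01.symm (by rwa [norm_sub_rev]); exact this
  · have := hi p2 p0 h02.symm (by rwa [norm_sub_rev]); exact this
  · have := hi p3 p0 h03.symm (by rwa [norm_sub_rev]); exact this
  · rw [← g]; exact hi p1 p2 h12 b4
  · rw [← g]; exact hi p1 p3 h13 b5
  · rw [← g]; exact hi p2 p3 h23 b6

/-- The line graph of the complete graph on four vertices is the octahedron, which is 4-connected:
the total variation over the twelve adjacent pairs is at least four times the oscillation. -/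
lemma oct_adj (x01 x02 x03 x12 x13 x23 : ℝ) :
    4 * |x01 - x02| ≤ |x01 - x02| + |x01 - x03| + |x02 - x03| + |x01 - x12| + |x01 - x13|
      + |x12 - x13| + |x02 - x12| + |x02 - x23| + |x12 - x23| + |x03 - x13| + |x03 - x23|
      + |x13 - x23| := by
  have h1 := abs_sub_le x01 x03 x02
  have h2 := abs_sub_le x01 x12 x02
  have h3 := abs_sub_le x01 x13 x02
  have h4 := abs_sub_le x13 x23 x02
  rw [abs_sub_comm x03 x02] at h1
  rw [abs_sub_comm x12 x02] at h2
  rw [abs_sub_comm x23 x02] at h4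
  have h5 := abs_nonneg (x03 - x13)
  have h6 := abs_nonneg (x03 - x23)
  have h7 := abs_nonneg (x12 - x13)
  have h8 := abs_nonneg (x12 - x23)
  linarith

lemma oct_opp (x01 x02 x03 x12 x13 x23 : ℝ) :
    4 * |x01 - x23| ≤ |x01 - x02| + |x01 - x03| + |x02 - x03| + |x01 - x12| + |x01 - x13|
      + |x12 - x13| + |x02 - x12| + |x02 - x23| + |x12 - x23| + |x03 - x13| + |x03 - x23|
      + |x13 - x23| := by
  have h1 := abs_sub_le x01 x02 x23
  have h2 := abs_sub_le x01 x03 x23
  have h3 := abs_sub_le x01 x12 x23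
  have h4 := abs_sub_le x01 x13 x23
  have h5 := abs_nonneg (x02 - x03)
  have h6 := abs_nonneg (x12 - x13)
  have h7 := abs_nonneg (x02 - x12)
  have h8 := abs_nonneg (x03 - x13)
  linarith

/-- The sum of the twelve adjacent differences of the six numbers attached to the edges. -/
noncomputable def tv (x01 x02 x03 x12 x13 x23 : ℝ) : ℝ :=
  |x01 - x02| + |x01 - x03| + |x02 - x03| + |x01 - x12| + |x01 - x13|
      + |x12 - x13| + |x02 - x12| + |x02 - x23| + |x12 - x23| + |x03 - x13| + |x03 - x23|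
      + |x13 - x23|

/-- If the total variation is less than `4Δ` then all six numbers lie in an interval of length less
than `Δ`. -/
lemma tv_small {x01 x02 x03 x12 x13 x23 Δ : ℝ} (h : tv x01 x02 x03 x12 x13 x23 ≤ 4 * Δ) :
    ∃ m, (m ≤ x01 ∧ m ≤ x02 ∧ m ≤ x03 ∧ m ≤ x12 ∧ m ≤ x13 ∧ m ≤ x23) ∧
      x01 ≤ m + Δ ∧ x02 ≤ m + Δ ∧ x03 ≤ m + Δ ∧ x12 ≤ m + Δ ∧ x13 ≤ m + Δ ∧ x23 ≤ m + Δ := by
  have d1 : |x01 - x02| ≤ Δ := by
    have := oct_adj x01 x02 x03 x12 x13 x23
    unfold tv at h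
    rw [← mul_le_mul_iff_right₀ (show (0:ℝ) < 4 by norm_num)]
    refine this.trans (le_trans (le_of_eq ?_) h)
    simp only [abs_sub_comm x02 x01, abs_sub_comm x03 x01, abs_sub_comm x03 x02, abs_sub_comm x12 x01, abs_sub_comm x13 x01, abs_sub_comm x13 x12, abs_sub_comm x12 x02, abs_sub_comm x23 x02, abs_sub_comm x23 x12, abs_sub_comm x13 x03, abs_sub_comm x23 x03, abs_sub_comm x23 x13]
    try ring
  have d2 : |x01 - x03| ≤ Δ := by
    have := oct_adj x01 x03 x02 x13 x12 x23
    unfold tv at h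
    rw [← mul_le_mul_iff_right₀ (show (0:ℝ) < 4 by norm_num)]
    refine this.trans (le_trans (le_of_eq ?_) h)
    simp only [abs_sub_comm x02 x01, abs_sub_comm x03 x01, abs_sub_comm x03 x02, abs_sub_comm x12 x01, abs_sub_comm x13 x01, abs_sub_comm x13 x12, abs_sub_comm x12 x02, abs_sub_comm x23 x02, abs_sub_comm x23 x12, abs_sub_comm x13 x03, abs_sub_comm x23 x03, abs_sub_comm x23 x13]
    try ring
  have d3 : |x02 - x03| ≤ Δ := by
    have := oct_adj x02 x03 x01 x23 x12 x13
    unfold tv at h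
    rw [← mul_le_mul_iff_right₀ (show (0:ℝ) < 4 by norm_num)]
    refine this.trans (le_trans (le_of_eq ?_) h)
    simp only [abs_sub_comm x02 x01, abs_sub_comm x03 x01, abs_sub_comm x03 x02, abs_sub_comm x12 x01, abs_sub_comm x13 x01, abs_sub_comm x13 x12, abs_sub_comm x12 x02, abs_sub_comm x23 x02, abs_sub_comm x23 x12, abs_sub_comm x13 x03, abs_sub_comm x23 x03, abs_sub_comm x23 x13]
    try ring
  have d4 : |x01 - x12| ≤ Δ := by
    have := oct_adj x01 x12 x13 x02 x03 x23
    unfold tv at h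
    rw [← mul_le_mul_iff_right₀ (show (0:ℝ) < 4 by norm_num)]
    refine this.trans (le_trans (le_of_eq ?_) h)
    simp only [abs_sub_comm x02 x01, abs_sub_comm x03 x01, abs_sub_comm x03 x02, abs_sub_comm x12 x01, abs_sub_comm x13 x01, abs_sub_comm x13 x12, abs_sub_comm x12 x02, abs_sub_comm x23 x02, abs_sub_comm x23 x12, abs_sub_comm x13 x03, abs_sub_comm x23 x03, abs_sub_comm x23 x13]
    try ring
  have d5 : |x01 - x13| ≤ Δ := by
    have := oct_adj x01 x13 x12 x03 x02 x23
    unfold tv at h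
    rw [← mul_le_mul_iff_right₀ (show (0:ℝ) < 4 by norm_num)]
    refine this.trans (le_trans (le_of_eq ?_) h)
    simp only [abs_sub_comm x02 x01, abs_sub_comm x03 x01, abs_sub_comm x03 x02, abs_sub_comm x12 x01, abs_sub_comm x13 x01, abs_sub_comm x13 x12, abs_sub_comm x12 x02, abs_sub_comm x23 x02, abs_sub_comm x23 x12, abs_sub_comm x13 x03, abs_sub_comm x23 x03, abs_sub_comm x23 x13]
    try ring
  have d6 : |x12 - x13| ≤ Δ := by
    have := oct_adj x12 x13 x01 x23 x02 x03
    unfold tv at h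
    rw [← mul_le_mul_iff_right₀ (show (0:ℝ) < 4 by norm_num)]
    refine this.trans (le_trans (le_of_eq ?_) h)
    simp only [abs_sub_comm x02 x01, abs_sub_comm x03 x01, abs_sub_comm x03 x02, abs_sub_comm x12 x01, abs_sub_comm x13 x01, abs_sub_comm x13 x12, abs_sub_comm x12 x02, abs_sub_comm x23 x02, abs_sub_comm x23 x12, abs_sub_comm x13 x03, abs_sub_comm x23 x03, abs_sub_comm x23 x13]
    try ring
  have d7 : |x02 - x12| ≤ Δ := by
    have := oct_adj x02 x12 x23 x01 x03 x13
    unfold tv at h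
    rw [← mul_le_mul_iff_right₀ (show (0:ℝ) < 4 by norm_num)]
    refine this.trans (le_trans (le_of_eq ?_) h)
    simp only [abs_sub_comm x02 x01, abs_sub_comm x03 x01, abs_sub_comm x03 x02, abs_sub_comm x12 x01, abs_sub_comm x13 x01, abs_sub_comm x13 x12, abs_sub_comm x12 x02, abs_sub_comm x23 x02, abs_sub_comm x23 x12, abs_sub_comm x13 x03, abs_sub_comm x23 x03, abs_sub_comm x23 x13]
    try ring
  have d8 : |x02 - x23| ≤ Δ := by
    have := oct_adj x02 x23 x12 x03 x01 x13
    unfold tv at h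
    rw [← mul_le_mul_iff_right₀ (show (0:ℝ) < 4 by norm_num)]
    refine this.trans (le_trans (le_of_eq ?_) h)
    simp only [abs_sub_comm x02 x01, abs_sub_comm x03 x01, abs_sub_comm x03 x02, abs_sub_comm x12 x01, abs_sub_comm x13 x01, abs_sub_comm x13 x12, abs_sub_comm x12 x02, abs_sub_comm x23 x02, abs_sub_comm x23 x12, abs_sub_comm x13 x03, abs_sub_comm x23 x03, abs_sub_comm x23 x13]
    try ring
  have d9 : |x12 - x23| ≤ Δ := by
    have := oct_adj x12 x23 x02 x13 x01 x03
    unfold tv at h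
    rw [← mul_le_mul_iff_right₀ (show (0:ℝ) < 4 by norm_num)]
    refine this.trans (le_trans (le_of_eq ?_) h)
    simp only [abs_sub_comm x02 x01, abs_sub_comm x03 x01, abs_sub_comm x03 x02, abs_sub_comm x12 x01, abs_sub_comm x13 x01, abs_sub_comm x13 x12, abs_sub_comm x12 x02, abs_sub_comm x23 x02, abs_sub_comm x23 x12, abs_sub_comm x13 x03, abs_sub_comm x23 x03, abs_sub_comm x23 x13]
    try ring
  have d10 : |x03 - x13| ≤ Δ := by
    have := oct_adj x03 x13 x23 x01 x02 x12
    unfold tv at h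
    rw [← mul_le_mul_iff_right₀ (show (0:ℝ) < 4 by norm_num)]
    refine this.trans (le_trans (le_of_eq ?_) h)
    simp only [abs_sub_comm x02 x01, abs_sub_comm x03 x01, abs_sub_comm x03 x02, abs_sub_comm x12 x01, abs_sub_comm x13 x01, abs_sub_comm x13 x12, abs_sub_comm x12 x02, abs_sub_comm x23 x02, abs_sub_comm x23 x12, abs_sub_comm x13 x03, abs_sub_comm x23 x03, abs_sub_comm x23 x13]
    try ring
  have d11 : |x03 - x23| ≤ Δ := by
    have := oct_adj x03 x23 x13 x02 x01 x12
    unfold tv at h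
    rw [← mul_le_mul_iff_right₀ (show (0:ℝ) < 4 by norm_num)]
    refine this.trans (le_trans (le_of_eq ?_) h)
    simp only [abs_sub_comm x02 x01, abs_sub_comm x03 x01, abs_sub_comm x03 x02, abs_sub_comm x12 x01, abs_sub_comm x13 x01, abs_sub_comm x13 x12, abs_sub_comm x12 x02, abs_sub_comm x23 x02, abs_sub_comm x23 x12, abs_sub_comm x13 x03, abs_sub_comm x23 x03, abs_sub_comm x23 x13]
    try ring
  have d12 : |x13 - x23| ≤ Δ := by
    have := oct_adj x13 x23 x03 x12 x01 x02
    unfold tv at h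
    rw [← mul_le_mul_iff_right₀ (show (0:ℝ) < 4 by norm_num)]
    refine this.trans (le_trans (le_of_eq ?_) h)
    simp only [abs_sub_comm x02 x01, abs_sub_comm x03 x01, abs_sub_comm x03 x02, abs_sub_comm x12 x01, abs_sub_comm x13 x01, abs_sub_comm x13 x12, abs_sub_comm x12 x02, abs_sub_comm x23 x02, abs_sub_comm x23 x12, abs_sub_comm x13 x03, abs_sub_comm x23 x03, abs_sub_comm x23 x13]
    try ring
  have d13 : |x01 - x23| ≤ Δ := by
    have := oct_opp x01 x02 x03 x12 x13 x23
    unfold tv at h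
    rw [← mul_le_mul_iff_right₀ (show (0:ℝ) < 4 by norm_num)]
    refine this.trans (le_trans (le_of_eq ?_) h)
    simp only [abs_sub_comm x02 x01, abs_sub_comm x03 x01, abs_sub_comm x03 x02, abs_sub_comm x12 x01, abs_sub_comm x13 x01, abs_sub_comm x13 x12, abs_sub_comm x12 x02, abs_sub_comm x23 x02, abs_sub_comm x23 x12, abs_sub_comm x13 x03, abs_sub_comm x23 x03, abs_sub_comm x23 x13]
    try ring
  have d14 : |x02 - x13| ≤ Δ := by
    have := oct_opp x02 x01 x03 x12 x23 x13
    unfold tv at h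
    rw [← mul_le_mul_iff_right₀ (show (0:ℝ) < 4 by norm_num)]
    refine this.trans (le_trans (le_of_eq ?_) h)
    simp only [abs_sub_comm x02 x01, abs_sub_comm x03 x01, abs_sub_comm x03 x02, abs_sub_comm x12 x01, abs_sub_comm x13 x01, abs_sub_comm x13 x12, abs_sub_comm x12 x02, abs_sub_comm x23 x02, abs_sub_comm x23 x12, abs_sub_comm x13 x03, abs_sub_comm x23 x03, abs_sub_comm x23 x13]
    try ring
  have d15 : |x03 - x12| ≤ Δ := by
    have := oct_opp x03 x01 x02 x13 x23 x12
    unfold tv at h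
    rw [← mul_le_mul_iff_right₀ (show (0:ℝ) < 4 by norm_num)]
    refine this.trans (le_trans (le_of_eq ?_) h)
    simp only [abs_sub_comm x02 x01, abs_sub_comm x03 x01, abs_sub_comm x03 x02, abs_sub_comm x12 x01, abs_sub_comm x13 x01, abs_sub_comm x13 x12, abs_sub_comm x12 x02, abs_sub_comm x23 x02, abs_sub_comm x23 x12, abs_sub_comm x13 x03, abs_sub_comm x23 x03, abs_sub_comm x23 x13]
    try ring
  rw [abs_le] at d1 d2 d3 d4 d5 d6 d7 d8 d9 d10 d11 d12 d13 d14 d15
  obtain ⟨m, hm, hle⟩ : ∃ m, (m = x01 ∨ m = x02 ∨ m = x03 ∨ m = x12 ∨ m = x13 ∨ m = x23) ∧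
      (m ≤ x01 ∧ m ≤ x02 ∧ m ≤ x03 ∧ m ≤ x12 ∧ m ≤ x13 ∧ m ≤ x23) := by
    refine ⟨min (min (min x01 x02) (min x03 x12)) (min x13 x23), ?_, ?_⟩
    · rcases min_choice (min (min x01 x02) (min x03 x12)) (min x13 x23) with h1 | h1
      · rcases min_choice (min x01 x02) (min x03 x12) with h2 | h2
        · rcases min_choice x01 x02 with h3 | h3 <;> rw [h1, h2, h3] <;> simp only [true_or, or_true]
        · rcases min_choice x03 x12 with h3 | h3 <;> rw [h1, h2, h3] <;> simp only [true_or, or_true]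
      · rcases min_choice x13 x23 with h3 | h3 <;> rw [h1, h3] <;> simp only [true_or, or_true]
    · simp only [min_le_iff, le_refl, true_or, or_true, and_self]
  refine ⟨m, hle, ?_⟩
  rcases hm with rfl | rfl | rfl | rfl | rfl | rfl <;>
    refine ⟨?_, ?_, ?_, ?_, ?_, ?_⟩ <;> linarith

/-- **Planar lemma.** The logarithms of the six distances of four distinct points of the plane have
total variation at least `2 log 2` over the twelve adjacent pairs. -/
lemma plane_tv {p0 p1 p2 p3 : ℂ} (h01 : p0 ≠ p1) (h02 : p0 ≠ p2) (h03 : p0 ≠ p3)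
    (h12 : p1 ≠ p2) (h13 : p1 ≠ p3) (h23 : p2 ≠ p3) :
    2 * Real.log 2 ≤ tv (Real.log ‖p0 - p1‖) (Real.log ‖p0 - p2‖) (Real.log ‖p0 - p3‖)
      (Real.log ‖p1 - p2‖) (Real.log ‖p1 - p3‖) (Real.log ‖p2 - p3‖) := by
  by_contra hlt
  push Not at hlt
  obtain ⟨m, ⟨a1, a2, a3, a4, a5, a6⟩, b1, b2, b3, b4, b5, b6⟩ :=
    tv_small (Δ := tv (Real.log ‖p0 - p1‖) (Real.log ‖p0 - p2‖) (Real.log ‖p0 - p3‖)
      (Real.log ‖p1 - p2‖) (Real.log ‖p1 - p3‖) (Real.log ‖p2 - p3‖) / 4) (le_of_eq (by ring))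
  exact plane_six h01 h02 h03 h12 h13 h23 (by linarith) m a1 a2 a3 a4 a5 a6 b1 b2 b3 b4 b5 b6

end Pool.Agent.BalanWangRC
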