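import Pool.Agent.MP_686ee2_an.RC.Mat

/-!
A bound for all matrices: `ω(A) ≤ 46 · M^(-3/2) · max ‖A_k‖`.
-/

set_option autoImplicit false

namespace Pool.Agent.BalanWangRC

open Finset

/-- Two of `m` points of `[-1, 1]` are at distance at most `2 / (m - 1)`. -/
lemma close_slopes {ι : Type*} (G : Finset ι) (s : ι → ℝ) (m : ℕ) (hm : 1 ≤ m)
    (hG : m < G.card) (hs : ∀ k ∈ G, -1 ≤ s k ∧ s k ≤ 1) :
    ∃ a ∈ G, ∃ b ∈ G, a ≠ b ∧ |s a - s b| ≤ 2 / m := by
  have hm0 : (0 : ℝ) < m := by exact_mod_cast hm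
  -- bins
  set f : ι → ℕ := fun k => min (m - 1) ⌊(s k + 1) * m / 2⌋₊ with hf
  obtain ⟨a, ha, b, hb, hab, hfab⟩ := exists_ne_map_eq_of_card_lt_of_maps_to
    (s := G) (t := range m) (f := f) (by rwa [card_range]) (by
      intro k _
      simp only [hf, coe_range, Set.mem_Iio]
      exact lt_of_le_of_lt (min_le_left _ _) (by omega))
  refine ⟨a, ha, b, hb, hab, ?_⟩
  have key : ∀ k ∈ G, (f k : ℝ) ≤ (s k + 1) * m / 2 ∧ (s k + 1) * m / 2 ≤ (f k : ℝ) + 1 := by
    intro k hk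
    obtain ⟨h1, h2⟩ := hs k hk
    have h0 : 0 ≤ (s k + 1) * m / 2 := by
      have : 0 ≤ s k + 1 := by linarith
      positivity
    constructor
    · calc (f k : ℝ) ≤ (⌊(s k + 1) * m / 2⌋₊ : ℝ) := by exact_mod_cast min_le_right _ _
        _ ≤ _ := Nat.floor_le h0
    · rcases le_total (m - 1) ⌊(s k + 1) * m / 2⌋₊ with h | h
      · have e : f k = m - 1 := min_eq_left h
        rw [e, Nat.cast_sub hm]
        push_cast
        nlinarith
      · have e : f k = ⌊(s k + 1) * m / 2⌋₊ := min_eq_right h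
        rw [e]
        exact (Nat.lt_floor_add_one _).le
  have ka := key a ha
  have kb := key b hb
  rw [hfab] at ka
  have h3 : |(s a - s b) * m / 2| ≤ 1 := by
    rw [abs_le]
    constructor <;> nlinarith [ka.1, ka.2, kb.1, kb.2]
  have h4 : |(s a - s b) * m / 2| = |s a - s b| * m / 2 := by
    rw [abs_div, abs_mul, abs_of_pos hm0, abs_of_pos (by norm_num : (0 : ℝ) < 2)]
  rw [h4] at h3
  rw [le_div_iff₀ hm0]
  linarith

/-- Among `n` vectors of the plane with total square norm `2` there are two with a small wedge product. -/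
lemma small_wedge {ι : Type*} [DecidableEq ι] (K : Finset ι) (n : ℕ) (hn : 13 ≤ n)
    (hK : K.card = n) (x y : ι → ℝ) (hsum : ∑ k ∈ K, (x k ^ 2 + y k ^ 2) = 2) :
    ∃ a ∈ K, ∃ b ∈ K, a ≠ b ∧ 0 < x a ^ 2 + y a ^ 2 ∧
      (y a * x b - x a * y b) ^ 2 * (n : ℝ) ^ 3 ≤ 1024 * (x a ^ 2 + y a ^ 2) := by
  have hn0 : (13 : ℝ) ≤ n := by exact_mod_cast hn
  have hq : ∀ k, 0 ≤ x k ^ 2 + y k ^ 2 := fun k => by positivity
  by_cases hz : ∃ b ∈ K, x b ^ 2 + y b ^ 2 = 0
  · obtain ⟨b, hb, hb0⟩ := hz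
    have hxb : x b = 0 := by nlinarith [sq_nonneg (x b), sq_nonneg (y b)]
    have hyb : y b = 0 := by nlinarith [sq_nonneg (x b), sq_nonneg (y b)]
    obtain ⟨a, ha, ha0⟩ : ∃ a ∈ K, 0 < x a ^ 2 + y a ^ 2 := by
      by_contra hcon
      push Not at hcon
      have : ∑ k ∈ K, (x k ^ 2 + y k ^ 2) ≤ 0 := sum_nonpos fun k hk => hcon k hk
      linarith
    refine ⟨a, ha, b, hb, fun e => ?_, ha0, ?_⟩
    · rw [e, hb0] at ha0
      exact lt_irrefl _ ha0
    · rw [hxb, hyb]
      simp only [mul_zero, sub_zero]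
      nlinarith
  · push Not at hz
    have hpos : ∀ k ∈ K, 0 < x k ^ 2 + y k ^ 2 := fun k hk =>
      lt_of_le_of_ne (hq k) (hz k hk).symm
    -- at least half of the vectors are short
    set G : Finset ι := K.filter (fun k => x k ^ 2 + y k ^ 2 ≤ 4 / n) with hG
    have hGc : n ≤ 2 * G.card := by
      by_contra hcon
      push Not at hcon
      set B : Finset ι := K.filter (fun k => ¬ x k ^ 2 + y k ^ 2 ≤ 4 / n) with hB
      have hc : G.card + B.card = n := by
        rw [hG, hB, card_filter_add_card_filter_not, hK]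
      have h1 : (B.card : ℝ) * (4 / n) ≤ ∑ k ∈ B, (x k ^ 2 + y k ^ 2) := by
        rw [← nsmul_eq_mul]
        exact card_nsmul_le_sum _ _ _ fun k hk => (not_le.1 (mem_filter.1 hk).2).le
      have h2 : ∑ k ∈ B, (x k ^ 2 + y k ^ 2) ≤ ∑ k ∈ K, (x k ^ 2 + y k ^ 2) :=
        sum_le_sum_of_subset_of_nonneg (filter_subset _ _) fun k _ _ => hq k
      rw [hsum] at h2
      have h3 : (B.card : ℝ) * (4 / n) ≤ 2 := h1.trans h2
      have h4 : (n : ℝ) < 2 * B.card := by
        have : n < 2 * B.card := by omega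
        exact_mod_cast this
      have h5 : (B.card : ℝ) * 4 ≤ 2 * n := by
        have : (B.card : ℝ) * (4 / n) = (B.card : ℝ) * 4 / n := by ring
        rw [this, div_le_iff₀ (by linarith)] at h3
        exact h3
      linarith
    -- one of the two coordinates dominates
    set G1 : Finset ι := G.filter (fun k => |y k| ≤ |x k|) with hG1
    set G2 : Finset ι := G.filter (fun k => ¬ |y k| ≤ |x k|) with hG2
    have hG12 : G1.card + G2.card = G.card := by
      rw [hG1, hG2, card_filter_add_card_filter_not]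
    obtain ⟨m, hm1, hm2, hm3⟩ : ∃ m : ℕ, 1 ≤ m ∧ 8 * m ≥ n ∧ 4 * m + 4 ≤ n + 3 := by
      refine ⟨(n - 1) / 4, by omega, by omega, by omega⟩
    have hm0 : (0 : ℝ) < m := by exact_mod_cast hm1
    have hnm : (n : ℝ) ≤ 8 * m := by exact_mod_cast hm2
    have final : ∀ (p q : ι → ℝ), (∀ k, p k ^ 2 + q k ^ 2 = x k ^ 2 + y k ^ 2) →
        ∀ a ∈ K, ∀ b ∈ K, x b ^ 2 + y b ^ 2 ≤ 4 / n → p a ≠ 0 → p b ≠ 0 →
        |q a / p a - q b / p b| ≤ 2 / m →
        (q a * p b - p a * q b) ^ 2 * (n : ℝ) ^ 3 ≤ 1024 * (x a ^ 2 + y a ^ 2) := by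
      intro p q hpq a ha b hb hb4 hpa hpb hs
      have e1 : q a * p b - p a * q b = p a * p b * (q a / p a - q b / p b) := by
        field_simp
      have e2 : (q a / p a - q b / p b) ^ 2 ≤ (2 / m) ^ 2 := by
        rw [← sq_abs]
        exact pow_le_pow_left₀ (abs_nonneg _) hs 2
      have e3 : p a ^ 2 ≤ x a ^ 2 + y a ^ 2 := by rw [← hpq a]; nlinarith [sq_nonneg (q a)]
      have e4 : p b ^ 2 ≤ 4 / n := by
        refine le_trans ?_ hb4
        rw [← hpq b]; nlinarith [sq_nonneg (q b)]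
      have e5 : (q a * p b - p a * q b) ^ 2 ≤ (x a ^ 2 + y a ^ 2) * (4 / n) * (2 / m) ^ 2 := by
        rw [e1, mul_pow, mul_pow]
        exact mul_le_mul (mul_le_mul e3 e4 (sq_nonneg _) (hq a)) e2 (sq_nonneg _)
          (mul_nonneg (hq a) (by positivity))
      have e6 : (4 / (n : ℝ)) * (2 / m) ^ 2 * (n : ℝ) ^ 3 ≤ 1024 := by
        have : (4 / (n : ℝ)) * (2 / m) ^ 2 * (n : ℝ) ^ 3 = 16 * ((n : ℝ) / m) ^ 2 := by
          field_simp
          ring
        rw [this]
        have h8 : (n : ℝ) / m ≤ 8 := by rw [div_le_iff₀ hm0]; exact hnm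
        have h9 : ((n : ℝ) / m) ^ 2 ≤ 8 ^ 2 := pow_le_pow_left₀ (by positivity) h8 2
        linarith
      calc (q a * p b - p a * q b) ^ 2 * (n : ℝ) ^ 3
          ≤ ((x a ^ 2 + y a ^ 2) * (4 / n) * (2 / m) ^ 2) * (n : ℝ) ^ 3 :=
            mul_le_mul_of_nonneg_right e5 (by positivity)
        _ = (x a ^ 2 + y a ^ 2) * ((4 / n) * (2 / m) ^ 2 * (n : ℝ) ^ 3) := by ring
        _ ≤ (x a ^ 2 + y a ^ 2) * 1024 := mul_le_mul_of_nonneg_left e6 (hq a)
        _ = _ := by ring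
    have slope : ∀ (p q : ℝ), |q| ≤ |p| → p ≠ 0 → -1 ≤ q / p ∧ q / p ≤ 1 := by
      intro p q h hp
      have : |q / p| ≤ 1 := by
        rw [abs_div, div_le_one (abs_pos.2 hp)]
        exact h
      exact abs_le.1 this
    rcases Nat.lt_or_ge m G1.card with h | h
    · have hne : ∀ k ∈ G1, x k ≠ 0 := by
        intro k hk hx0
        rw [hG1, mem_filter, hx0, abs_zero] at hk
        have hy0 : y k = 0 := abs_eq_zero.1 (le_antisymm hk.2 (abs_nonneg _))
        have := hpos k (mem_filter.1 hk.1).1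
        rw [hx0, hy0] at this
        norm_num at this
      obtain ⟨a, ha, b, hb, hab, hs⟩ := close_slopes G1 (fun k => y k / x k) m hm1 h
        (fun k hk => slope _ _ (mem_filter.1 hk).2 (hne k hk))
      have haK := (mem_filter.1 (mem_filter.1 ha).1).1
      have hbG := mem_filter.1 (mem_filter.1 hb).1
      exact ⟨a, haK, b, hbG.1, hab, hpos a haK,
        final x y (fun k => rfl) a haK b hbG.1 hbG.2 (hne a ha) (hne b hb) hs⟩
    · have h' : m < G2.card := by omega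
      have hne : ∀ k ∈ G2, y k ≠ 0 := by
        intro k hk hy0
        rw [hG2, mem_filter, hy0, abs_zero] at hk
        exact hk.2 (abs_nonneg _)
      obtain ⟨a, ha, b, hb, hab, hs⟩ := close_slopes G2 (fun k => x k / y k) m hm1 h'
        (fun k hk => slope _ _ (not_le.1 (mem_filter.1 hk).2).le (hne k hk))
      have haK := (mem_filter.1 (mem_filter.1 ha).1).1
      have hbG := mem_filter.1 (mem_filter.1 hb).1
      refine ⟨a, haK, b, hbG.1, hab, hpos a haK, ?_⟩
      have := final y x (fun k => add_comm _ _) a haK b hbG.1 hbG.2 (hne a ha) (hne b hb) hs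
      have e : (y a * x b - x a * y b) ^ 2 = (x a * y b - y a * x b) ^ 2 := by ring
      rw [e]
      exact this

/-- More unknowns than equations. -/
lemma ker_vec {N : ℕ} {κ : Type*} [Fintype κ] (Φ : κ → Fin N → ℝ) (h : Fintype.card κ < N) :
    ∃ z : Fin N → ℝ, 0 < ∑ k, z k ^ 2 ∧ ∀ i, ∑ k, Φ i k * z k = 0 := by
  have h1 : LinearMap.ker (Matrix.mulVecLin (Matrix.of Φ)) ≠ ⊥ := by
    apply LinearMap.ker_ne_bot_of_finrank_lt
    simpa using h
  obtain ⟨z, hz, hz0⟩ := (Submodule.ne_bot_iff _).1 h1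
  refine ⟨z, ?_, fun i => ?_⟩
  · obtain ⟨j, hj⟩ : ∃ j, z j ≠ 0 := by
      by_contra hcon
      push Not at hcon
      exact hz0 (funext hcon)
    exact Finset.sum_pos' (fun _ _ => sq_nonneg _) ⟨j, Finset.mem_univ _, by positivity⟩
  · rw [LinearMap.mem_ker] at hz
    exact congrFun hz i

lemma ker_unit {N : ℕ} {κ : Type*} [Fintype κ] (Φ : κ → Fin N → ℝ) (h : Fintype.card κ < N) :
    ∃ z : Fin N → ℝ, ∑ k, z k ^ 2 = 1 ∧ ∀ i, ∑ k, Φ i k * z k = 0 := by
  obtain ⟨z, hz, hz0⟩ := ker_vec Φ h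
  set s := Real.sqrt (∑ k, z k ^ 2) with hs
  have hspos : 0 < s := Real.sqrt_pos.2 hz
  have hs2 : s ^ 2 = ∑ k, z k ^ 2 := Real.sq_sqrt hz.le
  refine ⟨fun k => z k / s, ?_, fun i => ?_⟩
  · simp only [div_pow]
    rw [← Finset.sum_div, ← hs2]
    exact div_self (pow_pos hspos 2).ne'
  · have : ∀ k, Φ i k * (z k / s) = Φ i k * z k / s := fun k => by ring
    simp only [this]
    rw [← Finset.sum_div, hz0 i, zero_div]

/-- The trivial bound. -/
lemma trivial_bound {M : ℕ} (hM : 1 ≤ M) (A : Matrix (Fin (2 * M - 1)) (Fin M) ℝ) : Concl A 1 := by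
  classical
  obtain ⟨S, -, hS⟩ := Finset.exists_subset_card_eq (s := (univ : Finset (Fin (2 * M - 1)))) (n := M)
    (by rw [card_univ, Fintype.card_fin]; omega)
  obtain ⟨ks, -, hks⟩ := Finset.exists_max_image (univ : Finset (Fin (2 * M - 1)))
    (fun k => ∑ j, A k j ^ 2) ⟨⟨0, by omega⟩, Finset.mem_univ _⟩
  obtain ⟨j, -, hj⟩ : ∃ j ∈ (univ : Finset (Fin M)), ∑ i ∈ S, A i j ^ 2 ≤ ∑ j, A ks j ^ 2 := by
    apply Finset.exists_le_of_sum_le (⟨⟨0, by omega⟩, Finset.mem_univ _⟩)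
    rw [Finset.sum_comm, Finset.sum_const, card_univ, Fintype.card_fin, nsmul_eq_mul]
    have := Finset.sum_le_card_nsmul S (fun i => ∑ j, A i j ^ 2) _ fun i _ => hks i (Finset.mem_univ _)
    rw [hS, nsmul_eq_mul] at this
    exact this
  refine ⟨S, rank_lt hM A S hS, Pi.single j 1, ?_, ks, ?_⟩
  · rw [Finset.sum_eq_single j] <;> simp +contextual
  · rw [one_mul]
    refine Real.sqrt_le_sqrt ?_
    have : ∀ i, ∑ l, A i l * (Pi.single j (1 : ℝ) : Fin M → ℝ) l = A i j := by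
      intro i
      rw [Finset.sum_eq_single j] <;> simp +contextual
    simp only [this]
    exact hj

/-- **A bound for all matrices.** -/
theorem universal {M : ℕ} (hM : 1 < M) (A : Matrix (Fin (2 * M - 1)) (Fin M) ℝ) :
    Concl A (46 / (M : ℝ) ^ ((3 : ℝ) / 2)) := by
  classical
  have hM0 : (0 : ℝ) < M := by exact_mod_cast (by omega : 0 < M)
  have hp2 : ((M : ℝ) ^ ((3 : ℝ) / 2)) ^ 2 = (M : ℝ) ^ 3 := by
    rw [← Real.rpow_natCast, ← Real.rpow_mul hM0.le, ← Real.rpow_natCast]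
    norm_num
  have hppos : 0 < (M : ℝ) ^ ((3 : ℝ) / 2) := Real.rpow_pos_of_pos hM0 _
  rcases Nat.lt_or_ge M 11 with hsmall | hbig
  · obtain ⟨S, hS, x, hx, k, hk⟩ := trivial_bound hM.le A
    refine ⟨S, hS, x, hx, k, hk.trans ?_⟩
    refine mul_le_mul_of_nonneg_right ?_ (Real.sqrt_nonneg _)
    rw [le_div_iff₀ hppos, one_mul]
    have h1 : (M : ℝ) ≤ 10 := by exact_mod_cast (by omega : M ≤ 10)
    have h2 : (M : ℝ) ^ 3 ≤ 10 ^ 3 := pow_le_pow_left₀ hM0.le h1 3
    have h3 : ((M : ℝ) ^ ((3 : ℝ) / 2)) ^ 2 ≤ 46 ^ 2 := by rw [hp2]; linarith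
    exact le_of_sq_le_sq h3 (by norm_num)
  · -- the set `Y` of rows where the relation vanishes
    obtain ⟨Y, -, hYc⟩ := Finset.exists_subset_card_eq (s := (univ : Finset (Fin (2 * M - 1))))
      (n := M - 3) (by rw [card_univ, Fintype.card_fin]; omega)
    obtain ⟨x, hx1, hx0⟩ := ker_unit (N := 2 * M - 1) (κ := Fin M ⊕ Y)
      (Sum.elim (fun j k => A k j) (fun i k => if k = i.1 then 1 else 0)) (by
        rw [Fintype.card_sum, Fintype.card_fin, Fintype.card_coe, hYc]; omega)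
    obtain ⟨y, hy1, hy0⟩ := ker_unit (N := 2 * M - 1) (κ := (Fin M ⊕ Y) ⊕ Unit)
      (Sum.elim (Sum.elim (fun j k => A k j) (fun i k => if k = i.1 then 1 else 0))
        (fun _ k => x k)) (by
        rw [Fintype.card_sum, Fintype.card_sum, Fintype.card_fin, Fintype.card_coe, hYc,
          Fintype.card_unit]; omega)
    have hxA : ∀ j, ∑ k, A k j * x k = 0 := fun j => hx0 (Sum.inl j)
    have hxY : ∀ i ∈ Y, x i = 0 := by
      intro i hi
      have := hx0 (Sum.inr ⟨i, hi⟩)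
      simpa using this
    have hyA : ∀ j, ∑ k, A k j * y k = 0 := fun j => hy0 (Sum.inl (Sum.inl j))
    have hyY : ∀ i ∈ Y, y i = 0 := by
      intro i hi
      have := hy0 (Sum.inl (Sum.inr ⟨i, hi⟩))
      simpa using this
    have hxy : ∑ k, x k * y k = 0 := hy0 (Sum.inr ())
    set n : ℕ := M + 2 with hn
    have hKc : (Yᶜ).card = n := by
      rw [card_compl, Fintype.card_fin, hYc]; omega
    obtain ⟨a, ha, b, hb, hab, hapos, hab2⟩ := small_wedge (Yᶜ) n (by omega) hKc x y (by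
      have h1 := Finset.sum_add_sum_compl Y (fun k => x k ^ 2 + y k ^ 2)
      have h2 : ∑ k ∈ Y, (x k ^ 2 + y k ^ 2) = 0 := by
        refine Finset.sum_eq_zero fun k hk => ?_
        rw [hxY k hk, hyY k hk]; ring
      rw [h2, Finset.sum_add_distrib (s := univ), hx1, hy1] at h1
      linarith)
    rw [mem_compl] at ha hb
    set q : ℝ := x a ^ 2 + y a ^ 2 with hq
    set z : Fin (2 * M - 1) → ℝ := fun k => y a * x k - x a * y k with hz
    have hzA : ∀ j, ∑ k, z k * A k j = 0 := by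
      intro j
      have : ∀ k, z k * A k j = y a * (A k j * x k) - x a * (A k j * y k) := fun k => by
        simp only [hz]; ring
      simp only [this]
      rw [Finset.sum_sub_distrib, ← Finset.mul_sum, ← Finset.mul_sum, hxA, hyA]
      ring
    have hzsq : ∑ k, z k ^ 2 = q := by
      have : ∀ k, z k ^ 2 = y a ^ 2 * x k ^ 2 - 2 * x a * y a * (x k * y k) + x a ^ 2 * y k ^ 2 :=
        fun k => by simp only [hz]; ring
      simp only [this]
      rw [Finset.sum_add_distrib, Finset.sum_sub_distrib, ← Finset.mul_sum, ← Finset.mul_sum,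
        ← Finset.mul_sum, hx1, hy1, hxy, hq]
      ring
    set T1 : Finset (Fin (2 * M - 1)) := insert a (insert b Y) with hT1
    have hT1c : T1.card = M - 1 := by
      rw [hT1, card_insert_of_notMem, card_insert_of_notMem hb, hYc]
      · omega
      · rw [mem_insert, not_or]; exact ⟨hab, ha⟩
    have hSc : (T1ᶜ).card = M := by
      rw [card_compl, Fintype.card_fin, hT1c]; omega
    have hza : z a = 0 := by simp only [hz]; ring
    have hT1sum : ∀ f : Fin (2 * M - 1) → ℝ, (∀ k ∈ Y, f k = 0) → f a = 0 → ∑ k ∈ T1, f k = f b := by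
      intro f hf hfa
      rw [hT1, sum_insert, sum_insert hb, Finset.sum_eq_zero hf, hfa]
      · ring
      · rw [mem_insert, not_or]; exact ⟨hab, ha⟩
    have hzY : ∀ k ∈ Y, z k = 0 := by
      intro k hk
      simp only [hz]
      rw [hxY k hk, hyY k hk]; ring
    have hn13 : (13 : ℝ) ≤ n := by exact_mod_cast (by omega : 13 ≤ n)
    have hn3 : (2048 : ℝ) ≤ (n : ℝ) ^ 3 := by
      have : (13 : ℝ) ^ 3 ≤ (n : ℝ) ^ 3 := pow_le_pow_left₀ (by norm_num) hn13 3
      linarith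
    have hn3pos : 0 < (n : ℝ) ^ 3 := by linarith
    have hzb : z b ^ 2 * (n : ℝ) ^ 3 ≤ 1024 * q := hab2
    have hSsq : q / 2 ≤ ∑ k ∈ T1ᶜ, z k ^ 2 := by
      have h1 := Finset.sum_add_sum_compl T1 (fun k => z k ^ 2)
      rw [hzsq, hT1sum (fun k => z k ^ 2) (fun k hk => by rw [hzY k hk]; ring)
        (by rw [hza]; ring)] at h1
      have h2 : z b ^ 2 * 2048 ≤ 1024 * q :=
        (mul_le_mul_of_nonneg_left hn3 (sq_nonneg _)).trans hzb
      linarith
    have hqpos : 0 < q := hapos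
    set s : ℝ := Real.sqrt (∑ k ∈ T1ᶜ, z k ^ 2) with hs
    have hSpos : 0 < ∑ k ∈ T1ᶜ, z k ^ 2 := by linarith
    have hspos : 0 < s := Real.sqrt_pos.2 hSpos
    have hs2 : s ^ 2 = ∑ k ∈ T1ᶜ, z k ^ 2 := Real.sq_sqrt hSpos.le
    obtain ⟨w, hw1, hw2⟩ := square A (T1ᶜ) hSc (fun k => z k / s) (by
        simp only [div_pow]
        rw [← Finset.sum_div, ← hs2, div_self (pow_pos hspos 2).ne'])
      (2048 / (n : ℝ) ^ 3 * ∑ j, A b j ^ 2) (by
        have h1 : ∀ j, (∑ i ∈ T1ᶜ, z i / s * A i j) ^ 2 = z b ^ 2 / s ^ 2 * A b j ^ 2 := by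
          intro j
          have h2 := Finset.sum_add_sum_compl T1 (fun i => z i * A i j)
          rw [hzA j, hT1sum (fun k => z k * A k j) (fun k hk => by rw [hzY k hk]; ring)
            (by rw [hza]; ring)] at h2
          have h3 : ∑ i ∈ T1ᶜ, z i / s * A i j = (∑ i ∈ T1ᶜ, z i * A i j) / s := by
            rw [Finset.sum_div]
            exact Finset.sum_congr rfl fun i _ => by ring
          have h4 : ∑ i ∈ T1ᶜ, z i * A i j = -(z b * A b j) := by linarith
          rw [h3, h4, div_pow]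
          ring
        simp only [h1]
        rw [← Finset.mul_sum]
        refine mul_le_mul_of_nonneg_right ?_ (Finset.sum_nonneg fun _ _ => sq_nonneg _)
        rw [div_le_div_iff₀ (pow_pos hspos 2) hn3pos, hs2]
        nlinarith)
    refine ⟨T1ᶜ, rank_lt hM.le A _ hSc, w, hw1, b, ?_⟩
    have hAb : 0 ≤ ∑ j, A b j ^ 2 := Finset.sum_nonneg fun _ _ => sq_nonneg _
    calc Real.sqrt (∑ i ∈ T1ᶜ, (∑ j, A i j * w j) ^ 2)
        ≤ Real.sqrt ((46 / (M : ℝ) ^ ((3 : ℝ) / 2)) ^ 2 * ∑ j, A b j ^ 2) := by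
          refine Real.sqrt_le_sqrt (hw2.trans (mul_le_mul_of_nonneg_right ?_ hAb))
          rw [div_pow, hp2]
          have h5 : (M : ℝ) ^ 3 ≤ (n : ℝ) ^ 3 :=
            pow_le_pow_left₀ hM0.le (by exact_mod_cast (by omega : M ≤ n)) 3
          have h6 : 0 < (M : ℝ) ^ 3 := by positivity
          rw [div_le_div_iff₀ hn3pos h6]
          nlinarith
      _ = _ := by
          rw [Real.sqrt_mul (sq_nonneg _), Real.sqrt_sq (by positivity)]

end Pool.Agent.BalanWangRC
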